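import Mathlib

/-! # MP_973fa8: holomorphic functions whose argument is tame on a circle (helper17) -/

set_option autoImplicit false

namespace Pool.Agent.Work.MP_973fa8.h17

open Set Filter Topology Metric

/-- `c` is in `[-1, 1]`, satisfies `pos`, and is a limit of points of `[-1, 1]` which do not -/
def PP (pos : ℝ → Prop) (c : ℝ) : Prop :=
  (-1 ≤ c ∧ c ≤ 1) ∧ pos c ∧ ∀ ε, 0 < ε → ∃ c', (-1 ≤ c' ∧ c' ≤ 1) ∧ (c - ε < c' ∧ c' < c + ε) ∧
    ¬ pos c'

theorem not_int_of_between {y : ℝ} {k : ℤ} (h1 : 2 * Real.pi * k < y)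
    (h2 : y < 2 * Real.pi * (k + 1)) (m : ℤ) : y ≠ 2 * Real.pi * m := by
  rintro rfl
  have hp := Real.pi_pos
  have h3 : (k : ℝ) < m := lt_of_mul_lt_mul_left h1 (by positivity)
  have h4 : (m : ℝ) < k + 1 := lt_of_mul_lt_mul_left h2 (by positivity)
  have h5 : k < m := by exact_mod_cast h3
  have h6 : m < k + 1 := by exact_mod_cast h4
  omega

theorem cross {V : ℝ → ℝ} {a b : ℝ} (hab : a ≤ b) (hV : ContinuousOn V (Icc a b)) (k : ℤ)
    (h1 : V a < 2 * Real.pi * k) (h2 : 2 * Real.pi * k < V b) :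
    ∃ t ∈ Icc a b, V t = 2 * Real.pi * k ∧ ∀ ε, 0 < ε → ∃ t' ∈ Icc a b,
      (t - ε < t' ∧ t' < t + ε) ∧ ∀ m : ℤ, V t' ≠ 2 * Real.pi * m := by
  have hp := Real.pi_pos
  set S : Set ℝ := Icc a b ∩ V ⁻¹' Iic (2 * Real.pi * k) with hS
  have hSc : IsCompact S :=
    isCompact_Icc.of_isClosed_subset (hV.preimage_isClosed_of_isClosed isClosed_Icc isClosed_Iic)
      inter_subset_left
  obtain ⟨t, ⟨ht1, ht2⟩, htmax⟩ := hSc.exists_isGreatest ⟨a, ⟨le_rfl, hab⟩, h1.le⟩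
  have htb : t < b := by
    rcases lt_or_eq_of_le ht1.2 with h | h
    · exact h
    · exact absurd ht2 (by rw [h]; exact not_le.2 h2)
  have hgt : ∀ t', t < t' → t' ≤ b → 2 * Real.pi * k < V t' := by
    intro t' h3 h4
    by_contra h5
    have h6 : t' ∈ S := ⟨⟨ht1.1.trans h3.le, h4⟩, not_lt.1 h5⟩
    exact absurd (htmax h6) (not_le.2 h3)
  have hcont : Tendsto V (𝓝[>] t) (𝓝 (V t)) := by
    have h3 : ContinuousWithinAt V (Icc a b) t := hV t ht1
    have h4 : 𝓝[>] t ≤ 𝓝[Icc a b] t := by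
      rw [← nhdsWithin_Ioc_eq_nhdsGT htb]
      exact nhdsWithin_mono _ fun y hy => ⟨ht1.1.trans hy.1.le, hy.2⟩
    exact h3.mono_left h4
  have hge : 2 * Real.pi * k ≤ V t := by
    apply ge_of_tendsto hcont
    filter_upwards [Ioc_mem_nhdsGT htb] with t' ht'
    exact (hgt t' ht'.1 ht'.2).le
  have heq : V t = 2 * Real.pi * k := le_antisymm ht2 hge
  refine ⟨t, ht1, heq, fun ε hε => ?_⟩
  have h3 : ∀ᶠ t' in 𝓝[>] t, V t' < 2 * Real.pi * (k + 1) := by
    apply hcont.eventually_lt_const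
    rw [heq]
    nlinarith
  obtain ⟨t', ⟨h4, h5⟩, h6⟩ := ((h3.and (Ioc_mem_nhdsGT htb)).and
    (Ioo_mem_nhdsGT (show t < t + ε by linarith))).exists
  exact ⟨t', ⟨ht1.1.trans h5.1.le, h5.2⟩, ⟨by linarith [h6.1], h6.2⟩,
    not_int_of_between (hgt t' h5.1 h5.2) h4⟩

theorem cross' {V : ℝ → ℝ} {a b : ℝ} (hab : a ≤ b) (hV : ContinuousOn V (Icc a b)) (k : ℤ)
    (h1 : 2 * Real.pi * k < V a) (h2 : V b < 2 * Real.pi * k) :
    ∃ t ∈ Icc a b, V t = 2 * Real.pi * k ∧ ∀ ε, 0 < ε → ∃ t' ∈ Icc a b,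
      (t - ε < t' ∧ t' < t + ε) ∧ ∀ m : ℤ, V t' ≠ 2 * Real.pi * m := by
  obtain ⟨t, ht, h3, h4⟩ := cross (V := fun y => - V y) hab hV.neg (-k)
    (by push_cast; linarith) (by push_cast; linarith)
  refine ⟨t, ht, by push_cast at h3; linarith, fun ε hε => ?_⟩
  obtain ⟨t', ht', h5, h6⟩ := h4 ε hε
  refine ⟨t', ht', h5, fun m hm => h6 (-m) ?_⟩
  push_cast
  linarith

theorem osc {V : ℝ → ℝ} (hV : ContinuousOn V (Icc (-1) 1)) {K : ℕ} {pos : ℝ → Prop}
    (hpos : ∀ c ∈ Icc (-1 : ℝ) 1, pos c ↔ ∃ k : ℤ, V c = 2 * Real.pi * k)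
    (hfin : {c | PP pos c}.Finite) (hK : {c | PP pos c}.ncard ≤ K) {c c' : ℝ}
    (hc : c ∈ Icc (-1 : ℝ) 1) (hc' : c' ∈ Icc (-1 : ℝ) 1) :
    V c' - V c ≤ 2 * Real.pi * (K + 1) := by
  have hp := Real.pi_pos
  by_contra hcon
  push Not at hcon
  have hex : ∀ k : ℤ, V c < 2 * Real.pi * k → 2 * Real.pi * k < V c' →
      ∃ t, PP pos t ∧ V t = 2 * Real.pi * k := by
    intro k h1 h2
    have fin : ∀ a b : ℝ, Icc a b ⊆ Icc (-1 : ℝ) 1 →
        (∃ t ∈ Icc a b, V t = 2 * Real.pi * k ∧ ∀ ε, 0 < ε → ∃ t' ∈ Icc a b,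
        (t - ε < t' ∧ t' < t + ε) ∧ ∀ m : ℤ, V t' ≠ 2 * Real.pi * m) →
        ∃ t, PP pos t ∧ V t = 2 * Real.pi * k := by
      rintro a b hab ⟨t, ht, h3, h4⟩
      refine ⟨t, ⟨hab ht, (hpos t (hab ht)).2 ⟨k, h3⟩, fun ε hε => ?_⟩, h3⟩
      obtain ⟨t', ht', h5, h6⟩ := h4 ε hε
      refine ⟨t', hab ht', h5, fun h7 => ?_⟩
      obtain ⟨m, hm⟩ := (hpos t' (hab ht')).1 h7
      exact h6 m hm
    rcases le_total c c' with h | h
    · have hsub : Icc c c' ⊆ Icc (-1 : ℝ) 1 := Icc_subset_Icc hc.1 hc'.2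
      exact fin c c' hsub (cross h (hV.mono hsub) k h1 h2)
    · have hsub : Icc c' c ⊆ Icc (-1 : ℝ) 1 := Icc_subset_Icc hc'.1 hc.2
      exact fin c' c hsub (cross' h (hV.mono hsub) k h2 h1)
  set k₀ : ℤ := ⌊V c / (2 * Real.pi)⌋ + 1 with hk₀
  have h2p : 0 < 2 * Real.pi := by positivity
  have hA : ∀ i : ℕ, V c < 2 * Real.pi * ((k₀ + i : ℤ) : ℝ) := by
    intro i
    have h1 : V c / (2 * Real.pi) < (⌊V c / (2 * Real.pi)⌋ : ℝ) + 1 := Int.lt_floor_add_one _
    have h2 : V c / (2 * Real.pi) < ((k₀ + i : ℤ) : ℝ) := by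
      rw [hk₀]
      push_cast
      have : (0 : ℝ) ≤ i := Nat.cast_nonneg i
      linarith
    rw [div_lt_iff₀ h2p] at h2
    linarith
  have hB : ∀ i : ℕ, i ≤ K → 2 * Real.pi * ((k₀ + i : ℤ) : ℝ) < V c' := by
    intro i hi
    have h1 : (⌊V c / (2 * Real.pi)⌋ : ℝ) ≤ V c / (2 * Real.pi) := Int.floor_le _
    rw [le_div_iff₀ h2p] at h1
    have h2 : (i : ℝ) ≤ K := by exact_mod_cast hi
    have h3 : ((k₀ + i : ℤ) : ℝ) = (⌊V c / (2 * Real.pi)⌋ : ℝ) + 1 + i := by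
      rw [hk₀]
      push_cast
      ring
    rw [h3]
    nlinarith
  have hch : ∀ i : ℕ, ∃ t, i ≤ K → PP pos t ∧ V t = 2 * Real.pi * ((k₀ + i : ℤ) : ℝ) := by
    intro i
    by_cases hi : i ≤ K
    · obtain ⟨t, ht⟩ := hex (k₀ + i) (hA i) (hB i hi)
      exact ⟨t, fun _ => ht⟩
    · exact ⟨0, fun h => absurd h hi⟩
  choose t ht using hch
  have hcard : (Finset.range (K + 1)).card ≤ hfin.toFinset.card := by
    apply Finset.card_le_card_of_injOn t
    · intro i hi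
      have hi' : i ≤ K := by
        have := Finset.mem_range.1 (Finset.mem_coe.1 hi)
        omega
      rw [Finset.mem_coe, Set.Finite.mem_toFinset]
      exact (ht i hi').1
    · intro i hi j hj he
      have hi' : i ≤ K := by
        have := Finset.mem_range.1 (Finset.mem_coe.1 hi)
        omega
      have hj' : j ≤ K := by
        have := Finset.mem_range.1 (Finset.mem_coe.1 hj)
        omega
      have h1 := (ht i hi').2
      have h2 := (ht j hj').2
      rw [he, h2] at h1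
      have h3 := mul_left_cancel₀ h2p.ne' h1
      push_cast at h3
      have h4 : (j : ℝ) = i := by linarith
      exact_mod_cast h4.symm
  rw [Finset.card_range, ← Set.ncard_eq_toFinset_card _ hfin] at hcard
  omega

/-- the point of abscissa `x + ρ c` on the upper (`σ = 1`) or lower half of a circle -/
noncomputable def pt (x ρ σ c : ℝ) : ℂ := ⟨x + ρ * c, σ * (ρ * √(1 - c ^ 2))⟩

theorem pt_mem {x ρ σ c : ℝ} (hρ : 0 < ρ) (hσ : σ = 1 ∨ σ = -1) (hc : c ∈ Icc (-1 : ℝ) 1) :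
    pt x ρ σ c ∈ sphere (x : ℂ) ρ := by
  have h1 : 0 ≤ 1 - c ^ 2 := by nlinarith [hc.1, hc.2]
  have hσ2 : σ ^ 2 = 1 := by rcases hσ with rfl | rfl <;> norm_num
  rw [mem_sphere_iff_norm]
  have h2 : pt x ρ σ c - (x : ℂ) = ⟨ρ * c, σ * (ρ * √(1 - c ^ 2))⟩ := by
    unfold pt
    apply Complex.ext <;> simp
  rw [h2, ← abs_of_pos hρ, Complex.norm_def, Real.sqrt_eq_iff_mul_self_eq (Complex.normSq_nonneg _)
    (abs_nonneg _), Complex.normSq_mk, abs_of_pos hρ]
  have h3 := Real.sq_sqrt h1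
  have h4 : σ * (ρ * √(1 - c ^ 2)) * (σ * (ρ * √(1 - c ^ 2))) =
      σ ^ 2 * ρ ^ 2 * √(1 - c ^ 2) ^ 2 := by ring
  rw [h4, hσ2, h3]
  ring

theorem exists_pt {x ρ : ℝ} (hρ : 0 < ρ) {z : ℂ} (hz : z ∈ sphere (x : ℂ) ρ) :
    ∃ σ c : ℝ, (σ = 1 ∨ σ = -1) ∧ c ∈ Icc (-1 : ℝ) 1 ∧ z = pt x ρ σ c := by
  rw [mem_sphere_iff_norm] at hz
  have h1 : (z.re - x) ^ 2 + z.im ^ 2 = ρ ^ 2 := by
    rw [← hz, ← Complex.normSq_eq_norm_sq, Complex.normSq_apply]
    simp
    ring
  set c := (z.re - x) / ρ with hc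
  have h2 : z.re = x + ρ * c := by
    rw [hc]
    field_simp
    ring
  have h3 : c ^ 2 ≤ 1 := by
    rw [hc, div_pow, div_le_one (by positivity)]
    nlinarith [sq_nonneg z.im]
  have h4 : c ∈ Icc (-1 : ℝ) 1 := by
    have := abs_le.1 ((sq_le_one_iff_abs_le_one c).1 h3)
    exact this
  have h5 : z.im ^ 2 = ρ ^ 2 * (1 - c ^ 2) := by
    have : (z.re - x) = ρ * c := by rw [h2]; ring
    rw [this] at h1
    linarith
  have h6 : ρ * √(1 - c ^ 2) = |z.im| := by
    rw [← Real.sqrt_sq_eq_abs, h5, Real.sqrt_mul (by positivity), Real.sqrt_sq hρ.le]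
  rcases le_total 0 z.im with h | h
  · refine ⟨1, c, Or.inl rfl, h4, ?_⟩
    unfold pt
    apply Complex.ext
    · exact h2
    · change z.im = 1 * (ρ * √(1 - c ^ 2))
      rw [h6, abs_of_nonneg h, one_mul]
  · refine ⟨-1, c, Or.inr rfl, h4, ?_⟩
    unfold pt
    apply Complex.ext
    · exact h2
    · change z.im = -1 * (ρ * √(1 - c ^ 2))
      rw [h6, abs_of_nonpos h]
      ring

/-- the points of the parameter interval where the circle crosses the preimage of the positive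
half-line -/
def QQ (F : ℂ → ℂ) (x ρ σ : ℝ) (c : ℝ) : Prop :=
  PP (fun c => (F (pt x ρ σ c)).im = 0 ∧ 0 < (F (pt x ρ σ c)).re) c

theorem key {F : ℂ → ℂ} {x r ρ : ℝ} (hρ : 0 < ρ) (hρr : ρ < r)
    (hF : DifferentiableOn ℂ F (ball (x : ℂ) r)) (h0 : ∀ z ∈ ball (x : ℂ) r, F z ≠ 0) {K : ℕ}
    (hK : ∀ σ : ℝ, (σ = 1 ∨ σ = -1) → {c | QQ F x ρ σ c}.Finite ∧ {c | QQ F x ρ σ c}.ncard ≤ K) :
    ρ * ‖deriv F x‖ ≤ Real.exp (4 * Real.pi * (K + 1)) * ‖F x‖ := by
  have hp := Real.pi_pos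
  have hr : 0 < r := hρ.trans hρr
  have hx : (x : ℂ) ∈ ball (x : ℂ) r := mem_ball_self hr
  have hdF : DifferentiableOn ℂ (deriv F) (ball (x : ℂ) r) := hF.deriv isOpen_ball
  have hq : DifferentiableOn ℂ (fun z => deriv F z / F z) (ball (x : ℂ) r) := hdF.div hF h0
  obtain ⟨G, hGx, hG⟩ := hq.isExactOn_ball.with_val_at (x : ℂ) (Complex.log (F x))
  -- `exp G = F`
  have hexp : ∀ z ∈ ball (x : ℂ) r, Complex.exp (G z) = F z := by
    have hder : ∀ z ∈ ball (x : ℂ) r,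
        HasDerivAt (fun z => Complex.exp (-G z) * F z) 0 z := by
      intro z hz
      have h1 : HasDerivAt F (deriv F z) z :=
        (hF.differentiableAt (isOpen_ball.mem_nhds hz)).hasDerivAt
      have h2 := ((hG z hz).fun_neg.cexp).mul h1
      have h3 : Complex.exp (-G z) * -(deriv F z / F z) * F z + Complex.exp (-G z) * deriv F z = 0 := by
        field_simp [h0 z hz]
        ring
      rw [h3] at h2
      exact h2
    intro z hz
    have h4 : (fun z => Complex.exp (-G z) * F z) z = (fun z => Complex.exp (-G z) * F z) x := by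
      apply IsOpen.is_const_of_deriv_eq_zero isOpen_ball (convex_ball _ _).isPreconnected
        (fun z hz => (hder z hz).differentiableAt.differentiableWithinAt)
        (fun z hz => (hder z hz).deriv) hz hx
    simp only at h4
    rw [hGx, Complex.exp_neg, Complex.exp_neg, Complex.exp_log (h0 x hx),
      inv_mul_cancel₀ (h0 x hx)] at h4
    rw [inv_mul_eq_div, div_eq_one_iff_eq (Complex.exp_ne_zero _)] at h4
    exact h4.symm
  have hGc : ContinuousOn G (ball (x : ℂ) r) := fun z hz => (hG z hz).continuousAt.continuousWithinAt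
  have hsph : sphere (x : ℂ) ρ ⊆ ball (x : ℂ) r := fun z hz => by
    rw [mem_sphere] at hz
    rw [mem_ball, hz]
    exact hρr
  have hptc : ∀ σ : ℝ, Continuous (pt x ρ σ) := by
    intro σ
    have h1 : pt x ρ σ = fun c => ((x + ρ * c : ℝ) : ℂ) +
        ((σ * (ρ * √(1 - c ^ 2)) : ℝ) : ℂ) * Complex.I := by
      funext c
      unfold pt
      apply Complex.ext <;> simp
    rw [h1]
    fun_prop
  -- oscillation of the argument
  set A : ℝ := 2 * Real.pi * (K + 1) with hA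
  have hosc : ∀ σ : ℝ, (σ = 1 ∨ σ = -1) → ∀ c ∈ Icc (-1 : ℝ) 1, ∀ c' ∈ Icc (-1 : ℝ) 1,
      (G (pt x ρ σ c')).im - (G (pt x ρ σ c)).im ≤ A := by
    intro σ hσ c hc c' hc'
    obtain ⟨h1, h2⟩ := hK σ hσ
    apply osc (V := fun c => (G (pt x ρ σ c)).im) (pos := fun c => (F (pt x ρ σ c)).im = 0 ∧
      0 < (F (pt x ρ σ c)).re) _ _ h1 h2 hc hc'
    · apply Complex.continuous_im.comp_continuousOn
      apply hGc.comp (hptc σ).continuousOn
      intro c hc
      exact hsph (pt_mem hρ hσ hc)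
    · intro c hc
      rw [← hexp _ (hsph (pt_mem hρ hσ hc)), Complex.exp_im, Complex.exp_re]
      set g := G (pt x ρ σ c)
      have hepos := Real.exp_pos g.re
      constructor
      · rintro ⟨h3, h4⟩
        have h5 : Real.sin g.im = 0 := by
          rcases mul_eq_zero.1 h3 with h | h
          · exact absurd h hepos.ne'
          · exact h
        have h6 : 0 < Real.cos g.im := by
          by_contra h
          exact absurd h4 (not_lt.2 (mul_nonpos_of_nonneg_of_nonpos hepos.le (not_lt.1 h)))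
        have h7 : Real.cos g.im = 1 := by
          have h8 := Real.sin_sq_add_cos_sq g.im
          rw [h5] at h8
          nlinarith
        obtain ⟨n, hn⟩ := (Real.cos_eq_one_iff _).1 h7
        exact ⟨n, by rw [← hn]; ring⟩
      · rintro ⟨k, hk⟩
        have h5 : g.im = k * (2 * Real.pi) := by rw [hk]; ring
        have h6 : Real.cos g.im = 1 := (Real.cos_eq_one_iff _).2 ⟨k, h5.symm⟩
        have h7 : Real.sin g.im = 0 := by
          have h8 := Real.sin_sq_add_cos_sq g.im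
          rw [h6] at h8
          nlinarith
        rw [h6, h7]
        exact ⟨by ring, by linarith⟩
  set v₁ : ℝ := (G (pt x ρ 1 1)).im with hv₁
  have hpt1 : pt x ρ (-1) 1 = pt x ρ 1 1 := by
    unfold pt
    norm_num
  have hone : (1 : ℝ) ∈ Icc (-1 : ℝ) 1 := ⟨by norm_num, le_rfl⟩
  have hbd : ∀ z ∈ sphere (x : ℂ) ρ, (G z).im - v₁ ≤ A ∧ v₁ - (G z).im ≤ A := by
    intro z hz
    obtain ⟨σ, c, hσ, hc, rfl⟩ := exists_pt hρ hz
    have h1 : v₁ = (G (pt x ρ σ 1)).im := by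
      rcases hσ with rfl | rfl
      · rfl
      · rw [hpt1]
    rw [h1]
    exact ⟨hosc σ hσ 1 hone c hc, hosc σ hσ c hc 1 hone⟩
  have hxρ : (x : ℂ) ∈ ball (x : ℂ) ρ := mem_ball_self hρ
  have hcl : closure (ball (x : ℂ) ρ) ⊆ ball (x : ℂ) r := by
    rw [closure_ball _ hρ.ne']
    exact closedBall_subset_ball hρr
  -- the bounded functions
  have hΦ : ∀ s : ℂ, DifferentiableOn ℂ (fun z => Complex.exp (s * G z)) (ball (x : ℂ) r) := by
    intro s z hz
    exact (((hG z hz).const_mul s).cexp).differentiableAt.differentiableWithinAt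
  have hnorm : ∀ z, ‖Complex.exp (Complex.I * G z)‖ = Real.exp (-(G z).im) := by
    intro z
    rw [Complex.norm_exp]
    congr 1
    simp
  have hnorm' : ∀ z, ‖Complex.exp (-Complex.I * G z)‖ = Real.exp ((G z).im) := by
    intro z
    rw [Complex.norm_exp]
    congr 1
    simp
  have hcauchy := Complex.norm_deriv_le_of_forall_mem_sphere_norm_le (C := Real.exp (A - v₁)) hρ
    ((hΦ Complex.I).mono hcl).diffContOnCl (fun z hz => by
      rw [hnorm]
      apply Real.exp_le_exp.2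
      linarith [(hbd z hz).2])
  have hmax := Complex.norm_le_of_forall_mem_frontier_norm_le (C := Real.exp (A + v₁))
    (isBounded_ball (x := (x : ℂ)) (r := ρ)) ((hΦ (-Complex.I)).mono hcl).diffContOnCl
    (fun z hz => by
      rw [frontier_ball _ hρ.ne'] at hz
      rw [hnorm']
      apply Real.exp_le_exp.2
      linarith [(hbd z hz).1]) (subset_closure hxρ)
  rw [hnorm'] at hmax
  have hdΦ : deriv (fun z => Complex.exp (Complex.I * G z)) x =
      Complex.exp (Complex.I * G x) * (Complex.I * (deriv F x / F x)) :=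
    (((hG x hx).const_mul Complex.I).cexp).deriv
  rw [hdΦ, norm_mul, norm_mul, hnorm, Complex.norm_I, one_mul, norm_div] at hcauchy
  have hFx : 0 < ‖F x‖ := norm_pos_iff.2 (h0 x hx)
  rw [le_div_iff₀ hρ] at hcauchy
  have h1 : Real.exp ((G x).im) * (Real.exp (-(G x).im) * (‖deriv F x‖ / ‖F x‖) * ρ) ≤
      Real.exp (A + v₁) * Real.exp (A - v₁) :=
    mul_le_mul hmax hcauchy (by positivity) (Real.exp_pos _).le
  have h2 : Real.exp ((G x).im) * (Real.exp (-(G x).im) * (‖deriv F x‖ / ‖F x‖) * ρ) =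
      ‖deriv F x‖ / ‖F x‖ * ρ := by
    rw [Real.exp_neg]
    field_simp
  have h3 : Real.exp (A + v₁) * Real.exp (A - v₁) = Real.exp (4 * Real.pi * (K + 1)) := by
    rw [← Real.exp_add]
    congr 1
    rw [hA]
    ring
  rw [h2, h3, div_mul_eq_mul_div, div_le_iff₀ hFx] at h1
  linarith

end Pool.Agent.Work.MP_973fa8.h17
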