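import Pool.Agent.Work.MP_973fa8_h17.UF
import Pool.Agent.Work.MP_973fa8_h17.AN

/-! # MP_973fa8: definable holomorphic functions near a half line (helper17) -/

set_option autoImplicit false

namespace Pool.Agent.Work.MP_973fa8.h17

open Set Filter Topology Metric Pool.Agent.Work.MP_973fa8.helper46

variable {L : FirstOrder.Language.{0, 0}} [L.Structure ℝ] {α : Type}

theorem dsqrt (o : Omin L) {F : (α → ℝ) → ℝ} (hF : DF L F) : DF L (fun v => √(F v)) := by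
  have h1 : DF L (fun v : Fin 1 → ℝ => √(v 0)) := by
    apply DF.of_graph1
    have h2 : DP L (fun v : Fin 2 → ℝ => (v 0 < 0 ∧ v 1 = 0) ∨
        (0 ≤ v 0 ∧ 0 ≤ v 1 ∧ v 1 * v 1 = v 0)) :=
      ((o.dlt (DF.var 0) (DF.const 0)).and ((DF.var 1).eq (DF.const 0))).or
        ((o.dle (DF.const 0) (DF.var 0)).and ((o.dle (DF.const 0) (DF.var 1)).and
          ((o.dmul (DF.var 1) (DF.var 1)).eq (DF.var 0))))
    refine h2.congr fun v => ?_
    rcases lt_or_ge (v 0) 0 with h | h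
    · rw [Real.sqrt_eq_zero'.2 h.le]
      constructor
      · rintro (⟨-, h3⟩ | ⟨h3, -⟩)
        · exact h3.symm
        · exact absurd h (not_lt.2 h3)
      · intro h3
        exact Or.inl ⟨h, h3.symm⟩
    · constructor
      · rintro (⟨h3, -⟩ | ⟨-, h4, h5⟩)
        · exact absurd h3 (not_lt.2 h)
        · rw [← h5, Real.sqrt_mul_self h4]
      · intro h3
        exact Or.inr ⟨h, by rw [← h3]; exact Real.sqrt_nonneg _, by
          rw [← h3]; exact Real.mul_self_sqrt h⟩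
  exact DF.sub1 (f := fun x => √x) h1 hF

/-- a complex function whose real and imaginary parts are definable -/
structure DC (L : FirstOrder.Language.{0, 0}) [L.Structure ℝ] (F : ℂ → ℂ) : Prop where
  re : DF L (fun v : Fin 2 → ℝ => (F ⟨v 0, v 1⟩).re)
  im : DF L (fun v : Fin 2 → ℝ => (F ⟨v 0, v 1⟩).im)

theorem DC.dre {F : ℂ → ℂ} (h : DC L F) {s t : (α → ℝ) → ℝ} (hs : DF L s) (ht : DF L t) :
    DF L (fun v => (F ⟨s v, t v⟩).re) := DF.sub2 (f := fun s t => (F ⟨s, t⟩).re) h.re hs ht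

theorem DC.dim {F : ℂ → ℂ} (h : DC L F) {s t : (α → ℝ) → ℝ} (hs : DF L s) (ht : DF L t) :
    DF L (fun v => (F ⟨s v, t v⟩).im) := DF.sub2 (f := fun s t => (F ⟨s, t⟩).im) h.im hs ht

/-- the value at the point of abscissa `p + ρ c` of the circle with centre `(p, q)` and radius `ρ`
is in the positive half line -/
def POS (F : ℂ → ℂ) (p q ρ σ c : ℝ) : Prop :=
  (F ⟨p + ρ * c, q + σ * (ρ * √(1 - c ^ 2))⟩).im = 0 ∧
    0 < (F ⟨p + ρ * c, q + σ * (ρ * √(1 - c ^ 2))⟩).re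

/-- translation by `q I` -/
def tr (F : ℂ → ℂ) (q : ℝ) (w : ℂ) : ℂ := F (w + q * Complex.I)

theorem tr_pt (F : ℂ → ℂ) (p q ρ σ c : ℝ) :
    tr F q (pt p ρ σ c) = F ⟨p + ρ * c, q + σ * (ρ * √(1 - c ^ 2))⟩ := by
  unfold tr pt
  congr 1
  apply Complex.ext
  · simp
  · simp only [Complex.add_im, Complex.mul_im, Complex.ofReal_re, Complex.I_im, mul_one,
      Complex.ofReal_im, Complex.I_re, mul_zero, add_zero]
    ring

theorem pos_def (o : Omin L) {F : ℂ → ℂ} (hF : DC L F) (σ : ℝ) {p q ρ c : (α → ℝ) → ℝ}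
    (hp : DF L p) (hq : DF L q) (hρ : DF L ρ) (hc : DF L c) :
    DP L (fun v => POS F (p v) (q v) (ρ v) σ (c v)) := by
  unfold POS
  have h1 : DF L (fun v => p v + ρ v * c v) := o.dadd hp (o.dmul hρ hc)
  have h2 : DF L (fun v => q v + σ * (ρ v * √(1 - c v ^ 2))) :=
    o.dadd hq (o.dmul (DF.const σ) (o.dmul hρ (dsqrt o (o.dsub (DF.const 1) (o.dpow hc 2)))))
  exact ((hF.dim h1 h2).eq (DF.const 0)).and (o.dlt (DF.const 0) (hF.dre h1 h2))

theorem qq_iff (F : ℂ → ℂ) (p q ρ σ c : ℝ) :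
    QQ (tr F q) p ρ σ c ↔ PP (POS F p q ρ σ) c := by
  unfold QQ POS
  simp only [tr_pt]

theorem qq_def (o : Omin L) {F : ℂ → ℂ} (hF : DC L F) {p q r : ℝ → ℝ}
    (hp : DF L (fun v : Fin 1 → ℝ => p (v 0))) (hq : DF L (fun v : Fin 1 → ℝ => q (v 0)))
    (hr : DF L (fun v : Fin 1 → ℝ => r (v 0))) (σ : ℝ) :
    DP L (fun v : Fin 2 → ℝ => PP (POS F (p (v 0)) (q (v 0)) (r (v 0)) σ) (v 1)) := by
  unfold PP
  apply DP.and ((o.dle (DF.const _) (DF.var _)).and (o.dle (DF.var _) (DF.const _)))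
  apply DP.and (pos_def o hF σ (DF.sub1 hp (DF.var 0)) (DF.sub1 hq (DF.var 0))
    (DF.sub1 hr (DF.var 0)) (DF.var 1))
  apply DP.all
  apply DP.imp (o.dlt (DF.const _) (DF.var _))
  apply DP.ex
  apply DP.and ((o.dle (DF.const _) (DF.var _)).and (o.dle (DF.var _) (DF.const _)))
  apply DP.and ((o.dlt (o.dsub (DF.var _) (DF.var _)) (DF.var _)).and
    (o.dlt (DF.var _) (o.dadd (DF.var _) (DF.var _))))
  apply DP.not
  exact pos_def o hF σ (DF.sub1 hp (DF.var _)) (DF.sub1 hq (DF.var _))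
    (DF.sub1 hr (DF.var _)) (DF.var _)

theorem qq_fin (o : Omin L) {F : ℂ → ℂ} (hF : DC L F) (σ p q ρ : ℝ) :
    {c | PP (POS F p q ρ σ) c}.Finite := by
  have h1 : DP L (fun v : Fin 1 → ℝ => (-1 ≤ v 0 ∧ v 0 ≤ 1) ∧ POS F p q ρ σ (v 0)) :=
    ((o.dle (DF.const _) (DF.var _)).and (o.dle (DF.var _) (DF.const _))).and
      (pos_def o hF σ (DF.const p) (DF.const q) (DF.const ρ) (DF.var 0))
  refine (frontier_fin o (P := fun c => (-1 ≤ c ∧ c ≤ 1) ∧ POS F p q ρ σ c) h1).subset ?_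
  rintro c ⟨hc, hp, hl⟩
  refine ⟨subset_closure ⟨hc, hp⟩, fun hi => ?_⟩
  obtain ⟨ε, hε, h⟩ := Metric.mem_nhds_iff.1 (mem_interior_iff_mem_nhds.1 hi)
  obtain ⟨c', h1, h2, h3⟩ := hl ε hε
  have h4 : c' ∈ ball c ε := by
    rw [mem_ball, Real.dist_eq, abs_lt]
    constructor <;> linarith [h2.1, h2.2]
  exact h3 (h h4).2

theorem qq_bound (o : Omin L) {F : ℂ → ℂ} (hF : DC L F) {p q r : ℝ → ℝ}
    (hp : DF L (fun v : Fin 1 → ℝ => p (v 0))) (hq : DF L (fun v : Fin 1 → ℝ => q (v 0)))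
    (hr : DF L (fun v : Fin 1 → ℝ => r (v 0))) (σ : ℝ) :
    ∃ K : ℕ, ∃ b : ℝ, ∀ x, b < x → {c | PP (POS F (p x) (q x) (r x) σ) c}.ncard ≤ K :=
  UF o (P := fun x c => PP (POS F (p x) (q x) (r x) σ) c) (qq_def o hF hp hq hr σ)
    (fun x => qq_fin o hF σ (p x) (q x) (r x)) fun _ _ hu => hu.1

/-- a function with isolated zeros on an open set has countably many -/
theorem zeros_countable {F : ℂ → ℂ} {Ω : Set ℂ} (h : ∀ z ∈ Ω, ∀ᶠ w in 𝓝[≠] z, F w ≠ 0) :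
    {z | z ∈ Ω ∧ F z = 0}.Countable := by
  have hd : DiscreteTopology {z | z ∈ Ω ∧ F z = 0} := by
    rw [discreteTopology_subtype_iff]
    intro z hz
    have h1 := h z hz.1
    rw [Filter.inf_principal_eq_bot]
    filter_upwards [h1] with w hw hw2
    exact hw hw2.2
  exact countable_of_Lindelof_of_discrete (X := {z | z ∈ Ω ∧ F z = 0})

theorem mem_ball_iff {p q r : ℝ} (hr : 0 ≤ r) (s t : ℝ) :
    (⟨s, t⟩ : ℂ) ∈ ball (⟨p, q⟩ : ℂ) r ↔ (s - p) ^ 2 + (t - q) ^ 2 < r ^ 2 := by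
  rw [mem_ball, dist_eq_norm]
  have e : (⟨s, t⟩ : ℂ) - (⟨p, q⟩ : ℂ) = ⟨s - p, t - q⟩ := by
    apply Complex.ext <;> simp
  have e2 : (s - p) ^ 2 + (t - q) ^ 2 = ‖(⟨s - p, t - q⟩ : ℂ)‖ ^ 2 := by
    rw [← Complex.normSq_eq_norm_sq, Complex.normSq_mk]
    ring
  rw [e, e2]
  exact (pow_lt_pow_iff_left₀ (norm_nonneg _) hr (by norm_num)).symm

/-- `F` vanishes on the disc -/
def VZ (F : ℂ → ℂ) (p q r : ℝ) : Prop :=
  ∀ s, ∀ t, (s - p) ^ 2 + (t - q) ^ 2 < r ^ 2 → (F ⟨s, t⟩).re = 0 ∧ (F ⟨s, t⟩).im = 0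

theorem key' {F : ℂ → ℂ} {p q r ρ : ℝ} (hρ : 0 < ρ) (hρr : ρ < r)
    (hF : DifferentiableOn ℂ F (ball ⟨p, q⟩ r)) (h0 : ∀ z ∈ ball (⟨p, q⟩ : ℂ) r, F z ≠ 0) {K : ℕ}
    (hK : ∀ σ : ℝ, (σ = 1 ∨ σ = -1) → {c | PP (POS F p q ρ σ) c}.Finite ∧
      {c | PP (POS F p q ρ σ) c}.ncard ≤ K) :
    ρ * ‖deriv F ⟨p, q⟩‖ ≤ Real.exp (4 * Real.pi * (K + 1)) * ‖F ⟨p, q⟩‖ := by
  have hc : (p : ℂ) + q * Complex.I = ⟨p, q⟩ := by
    apply Complex.ext <;> simp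
  have hmaps : ∀ w ∈ ball (p : ℂ) r, w + q * Complex.I ∈ ball (⟨p, q⟩ : ℂ) r := by
    intro w hw
    rw [← hc, mem_ball, dist_add_right]
    exact hw
  have h1 : DifferentiableOn ℂ (tr F q) (ball (p : ℂ) r) :=
    hF.comp ((differentiable_id.add_const _).differentiableOn) hmaps
  have h2 := key (F := tr F q) (x := p) (r := r) (ρ := ρ) hρ hρr h1
    (fun w hw => h0 _ (hmaps w hw)) (K := K) (by
      intro σ hσ
      simp only [qq_iff]
      exact hK σ hσ)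
  have h3 : deriv (tr F q) p = deriv F ⟨p, q⟩ := by
    rw [← hc]
    exact deriv_comp_add_const F (q * Complex.I) (p : ℂ)
  have h4 : tr F q p = F ⟨p, q⟩ := by
    rw [← hc]
    rfl
  rw [h3, h4] at h2
  exact h2

theorem partA (o : Omin L) {F : ℂ → ℂ} (hF : DC L F) {p q r : ℝ → ℝ}
    (hp : DF L (fun v : Fin 1 → ℝ => p (v 0))) (hq : DF L (fun v : Fin 1 → ℝ => q (v 0)))
    (hr : DF L (fun v : Fin 1 → ℝ => r (v 0)))
    (hd : ∀ᶠ t in atTop, 0 < r t ∧ DifferentiableOn ℂ F (ball ⟨p t, q t⟩ (r t)))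
    (hesc : ∀ z : ℂ, ∀ᶠ t in atTop, z ∉ ball (⟨p t, q t⟩ : ℂ) (r t / 2)) :
    ∃ C : ℝ, ∀ᶠ t in atTop, r t * ‖deriv F ⟨p t, q t⟩‖ ≤ C * ‖F ⟨p t, q t⟩‖ := by
  have hVZ : DP L (fun v : Fin 1 → ℝ => VZ F (p (v 0)) (q (v 0)) (r (v 0))) := by
    unfold VZ
    apply DP.all
    apply DP.all
    apply DP.imp
    · exact o.dlt (o.dadd (o.dpow (o.dsub (DF.var _) (DF.sub1 hp (DF.var _))) 2)
        (o.dpow (o.dsub (DF.var _) (DF.sub1 hq (DF.var _))) 2)) (o.dpow (DF.sub1 hr (DF.var _)) 2)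
    · exact ((hF.dre (DF.var _) (DF.var _)).eq (DF.const 0)).and
        ((hF.dim (DF.var _) (DF.var _)).eq (DF.const 0))
  rcases o.dich (P := fun t => VZ F (p t) (q t) (r t)) hVZ with h0 | h0
  · refine ⟨0, ?_⟩
    filter_upwards [h0, hd] with t ht hdt
    have h1 : F =ᶠ[𝓝 (⟨p t, q t⟩ : ℂ)] fun _ => 0 := by
      filter_upwards [isOpen_ball.mem_nhds (mem_ball_self (x := (⟨p t, q t⟩ : ℂ)) hdt.1)] with z hz
      have h2 := ht z.re z.im ((mem_ball_iff hdt.1.le z.re z.im).1 hz)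
      exact Complex.ext h2.1 h2.2
    rw [h1.deriv_eq]
    simp
  · obtain ⟨b, hb⟩ := eventually_atTop.1 (hd.and h0)
    set Ω : Set ℂ := ⋃ t ∈ Ioi b, ball (⟨p t, q t⟩ : ℂ) (r t) with hΩ
    have hiso : ∀ z ∈ Ω, ∀ᶠ w in 𝓝[≠] z, F w ≠ 0 := by
      intro z hz
      obtain ⟨t, ht, hzt⟩ := mem_iUnion₂.1 hz
      obtain ⟨⟨hrt, hdt⟩, hvt⟩ := hb t (le_of_lt ht)
      have han : AnalyticOnNhd ℂ F (ball (⟨p t, q t⟩ : ℂ) (r t)) := hdt.analyticOnNhd isOpen_ball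
      rcases han.eqOn_zero_or_eventually_ne_zero_of_preconnected
        (convex_ball _ _).isPreconnected with h1 | h1
      · exfalso
        refine hvt fun s t' hst => ?_
        have h2 := h1 ((mem_ball_iff hrt.le s t').2 hst)
        simp only [Pi.zero_apply] at h2
        rw [h2]
        exact ⟨rfl, rfl⟩
      · have h2 := (mem_codiscreteWithin_iff_forall_mem_nhdsNE.1 h1) z hzt
        have h3 : ball (⟨p t, q t⟩ : ℂ) (r t) ∈ 𝓝[≠] z :=
          mem_nhdsWithin_of_mem_nhds (isOpen_ball.mem_nhds hzt)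
        filter_upwards [h2, h3] with w hw hw2
        rcases hw with hw | hw
        · exact hw
        · exact absurd hw2 hw
    have hcount := zeros_countable hiso
    -- zeros
    have hmem : ∀ s t : ℝ, (∃ x, b < x ∧ (s - p x) ^ 2 + (t - q x) ^ 2 < r x ^ 2 ∧
        (F ⟨s, t⟩).re = 0 ∧ (F ⟨s, t⟩).im = 0) ↔ (⟨s, t⟩ : ℂ) ∈ {z | z ∈ Ω ∧ F z = 0} := by
      intro s t
      constructor
      · rintro ⟨x, hx, h1, h2, h3⟩
        exact ⟨mem_biUnion (show x ∈ Ioi b from hx)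
          ((mem_ball_iff (hb x (le_of_lt hx)).1.1.le s t).2 h1), Complex.ext h2 h3⟩
      · rintro ⟨h1, h2⟩
        obtain ⟨x, hx, hzx⟩ := mem_iUnion₂.1 h1
        refine ⟨x, hx, (mem_ball_iff (hb x (le_of_lt hx)).1.1.le s t).1 hzx, ?_, ?_⟩
        · rw [h2]; rfl
        · rw [h2]; rfl
    have hdef : DP L (fun v : Fin 2 → ℝ => ∃ x, b < x ∧
        (v 0 - p x) ^ 2 + (v 1 - q x) ^ 2 < r x ^ 2 ∧
        (F ⟨v 0, v 1⟩).re = 0 ∧ (F ⟨v 0, v 1⟩).im = 0) := by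
      apply DP.ex
      apply DP.and (o.dlt (DF.const _) (DF.var _))
      apply DP.and (o.dlt (o.dadd (o.dpow (o.dsub (DF.var _) (DF.sub1 hp (DF.var _))) 2)
        (o.dpow (o.dsub (DF.var _) (DF.sub1 hq (DF.var _))) 2)) (o.dpow (DF.sub1 hr (DF.var _)) 2))
      exact ((hF.dre (DF.var _) (DF.var _)).eq (DF.const 0)).and
        ((hF.dim (DF.var _) (DF.var _)).eq (DF.const 0))
    have hre : {s : ℝ | ∃ t, ∃ x, b < x ∧ (s - p x) ^ 2 + (t - q x) ^ 2 < r x ^ 2 ∧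
        (F ⟨s, t⟩).re = 0 ∧ (F ⟨s, t⟩).im = 0}.Finite := by
      apply fin_of_countable o
      · apply DP.ex
        exact DP.sub2 (P := fun s t => ∃ x, b < x ∧ (s - p x) ^ 2 + (t - q x) ^ 2 < r x ^ 2 ∧
          (F ⟨s, t⟩).re = 0 ∧ (F ⟨s, t⟩).im = 0) hdef (DF.var _) (DF.var _)
      · refine (hcount.image Complex.re).mono ?_
        rintro s ⟨t, h⟩
        exact ⟨⟨s, t⟩, (hmem s t).1 h, rfl⟩
    have him : {t : ℝ | ∃ s, ∃ x, b < x ∧ (s - p x) ^ 2 + (t - q x) ^ 2 < r x ^ 2 ∧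
        (F ⟨s, t⟩).re = 0 ∧ (F ⟨s, t⟩).im = 0}.Finite := by
      apply fin_of_countable o
      · apply DP.ex
        exact DP.sub2 (P := fun s t => ∃ x, b < x ∧ (s - p x) ^ 2 + (t - q x) ^ 2 < r x ^ 2 ∧
          (F ⟨s, t⟩).re = 0 ∧ (F ⟨s, t⟩).im = 0) hdef (DF.var _) (DF.var _)
      · refine (hcount.image Complex.im).mono ?_
        rintro t ⟨s, h⟩
        exact ⟨⟨s, t⟩, (hmem s t).1 h, rfl⟩
    have hZf : {z | z ∈ Ω ∧ F z = 0}.Finite := by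
      refine ((hre.prod him).image fun w : ℝ × ℝ => (⟨w.1, w.2⟩ : ℂ)).subset ?_
      intro z hz
      refine ⟨(z.re, z.im), ⟨⟨z.im, (hmem z.re z.im).2 hz⟩, ⟨z.re, (hmem z.re z.im).2 hz⟩⟩, ?_⟩
      exact Complex.ext rfl rfl
    have hev : ∀ᶠ t in atTop, ∀ z ∈ {z | z ∈ Ω ∧ F z = 0},
        z ∉ ball (⟨p t, q t⟩ : ℂ) (r t / 2) := by
      rw [Filter.eventually_all_finite hZf]
      intro z _
      exact hesc z
    have hr4 : DF L (fun v : Fin 1 → ℝ => r (v 0) / 4) := by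
      have h1 := o.dmul hr (DF.const (1 / 4 : ℝ))
      have e : (fun v : Fin 1 → ℝ => r (v 0) / 4) = fun v => r (v 0) * (1 / 4) := by
        funext v
        ring
      rw [e]
      exact h1
    obtain ⟨K₁, b₁, h₁⟩ := qq_bound o hF hp hq (r := fun x => r x / 4) hr4 1
    obtain ⟨K₂, b₂, h₂⟩ := qq_bound o hF hp hq (r := fun x => r x / 4) hr4 (-1)
    refine ⟨4 * Real.exp (4 * Real.pi * ((max K₁ K₂ : ℕ) + 1)), ?_⟩
    filter_upwards [eventually_gt_atTop b, hev, eventually_gt_atTop b₁,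
      eventually_gt_atTop b₂] with x hx hx0 hx1 hx2
    have hrx := (hb x hx.le).1
    have hnz : ∀ z ∈ ball (⟨p x, q x⟩ : ℂ) (r x / 2), F z ≠ 0 := by
      intro z hz hFz
      refine hx0 z ⟨mem_biUnion (show x ∈ Ioi b from hx) ?_, hFz⟩ hz
      exact ball_subset_ball (by linarith) hz
    have hk := key' (F := F) (p := p x) (q := q x) (r := r x / 2) (ρ := r x / 4) (by linarith)
      (by linarith) (hrx.2.mono (ball_subset_ball (by linarith))) hnz (K := max K₁ K₂) (by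
        intro σ hσ
        refine ⟨qq_fin o hF σ (p x) (q x) (r x / 4), ?_⟩
        rcases hσ with rfl | rfl
        · exact (h₁ x hx1).trans (le_max_left _ _)
        · exact (h₂ x hx2).trans (le_max_right _ _))
    linarith

theorem partA_axis (o : Omin L) {F : ℂ → ℂ} (hF : DC L F) {r : ℝ → ℝ}
    (hr : DF L (fun v : Fin 1 → ℝ => r (v 0)))
    (hd : ∀ᶠ x in atTop, 0 < r x ∧ r x ≤ x ∧ DifferentiableOn ℂ F (ball ((x : ℝ) : ℂ) (r x))) :
    ∃ C : ℝ, ∀ᶠ x in atTop, r x * ‖deriv F ((x : ℝ) : ℂ)‖ ≤ C * ‖F ((x : ℝ) : ℂ)‖ := by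
  refine partA o hF (p := fun x => x) (q := fun _ => 0) (r := r) (DF.var 0) (DF.const 0) hr
    (hd.mono fun x hx => ⟨hx.1, hx.2.2⟩) ?_
  intro z
  filter_upwards [hd, eventually_gt_atTop (2 * ‖z‖)] with x hx hx2 hz
  have h1 : dist z ((x : ℝ) : ℂ) < r x / 2 := hz
  rw [dist_comm, dist_eq_norm] at h1
  have h2 := norm_sub_norm_le ((x : ℝ) : ℂ) z
  have h3 : ‖((x : ℝ) : ℂ)‖ = x := by
    rw [Complex.norm_real, Real.norm_eq_abs, abs_of_pos]
    linarith [norm_nonneg z]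
  rw [h3] at h2
  linarith [hx.2.1]

end Pool.Agent.Work.MP_973fa8.h17
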