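import Pool.Agent.Work.MP_973fa8_h17.CA

/-! # MP_973fa8: definable harmonic functions near a half line (helper17) -/

set_option autoImplicit false

namespace Pool.Agent.Work.MP_973fa8.h17

open Set Filter Topology Metric Pool.Agent.Work.MP_973fa8.helper46 InnerProductSpace

variable {L : FirstOrder.Language.{0, 0}} [L.Structure ℝ] {α : Type}

/-! ## Derivatives are definable -/

theorem hd_iff (g : ℝ → ℝ) (y s : ℝ) : HasDerivAt g y s ↔ ∀ ε, 0 < ε → ∃ δ, 0 < δ ∧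
    ∀ h, |h| < δ → |g (s + h) - g s - h * y| ≤ ε * |h| := by
  rw [hasDerivAt_iff_isLittleO_nhds_zero, Asymptotics.isLittleO_iff]
  simp only [Metric.eventually_nhds_iff, Real.dist_eq, sub_zero, Real.norm_eq_abs, smul_eq_mul]

def HH (G : ℝ → ℝ → ℝ) (a s y : ℝ) : Prop := ∀ ε, 0 < ε → ∃ δ, 0 < δ ∧
    ∀ h, |h| < δ → |G a (s + h) - G a s - h * y| ≤ ε * |h|

theorem hh_def (o : Omin L) {G : ℝ → ℝ → ℝ} (hG : DF L (fun v : Fin 2 → ℝ => G (v 0) (v 1)))
    {a s y : (α → ℝ) → ℝ} (ha : DF L a) (hs : DF L s) (hy : DF L y) :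
    DP L (fun v => HH G (a v) (s v) (y v)) := by
  have h3 : DP L (fun v : Fin 3 → ℝ => HH G (v 0) (v 1) (v 2)) := by
    unfold HH
    apply DP.all
    apply DP.imp (o.dlt (DF.const _) (DF.var _))
    apply DP.ex
    apply DP.and (o.dlt (DF.const _) (DF.var _))
    apply DP.all
    apply DP.imp (o.dlt (o.dabs (DF.var _)) (DF.var _))
    exact o.dle (o.dabs (o.dsub (o.dsub (DF.sub2 hG (DF.var _) (o.dadd (DF.var _) (DF.var _)))
      (DF.sub2 hG (DF.var _) (DF.var _))) (o.dmul (DF.var _) (DF.var _))))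
      (o.dmul (DF.var _) (o.dabs (DF.var _)))
  exact DP.sub (P := fun v : Fin 3 → ℝ => HH G (v 0) (v 1) (v 2)) h3
    (F := fun v => ![a v, s v, y v]) (by
      intro i
      fin_cases i
      · exact ha
      · exact hs
      · exact hy)

theorem dderiv (o : Omin L) {G : ℝ → ℝ → ℝ} (hG : DF L (fun v : Fin 2 → ℝ => G (v 0) (v 1))) :
    DF L (fun v : Fin 2 → ℝ => deriv (G (v 0)) (v 1)) := by
  apply DF.of_graph2 (f := fun a s => deriv (G a) s)
  have h1 : DP L (fun v : Fin 3 → ℝ => HH G (v 0) (v 1) (v 2) ∨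
      ((¬ ∃ y, HH G (v 0) (v 1) y) ∧ v 2 = 0)) := by
    apply DP.or (hh_def o hG (DF.var _) (DF.var _) (DF.var _))
    apply DP.and
    · apply DP.not
      apply DP.ex
      exact hh_def o hG (DF.var _) (DF.var _) (DF.var _)
    · exact (DF.var _).eq (DF.const 0)
  refine h1.congr fun v => ?_
  have e : ∀ y, HH G (v 0) (v 1) y ↔ HasDerivAt (G (v 0)) y (v 1) := fun y =>
    (hd_iff (G (v 0)) y (v 1)).symm
  simp only [e]
  constructor
  · rintro (h | ⟨h2, h3⟩)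
    · exact h.deriv
    · rw [h3]
      apply deriv_zero_of_not_differentiableAt
      intro h4
      exact h2 ⟨_, h4.hasDerivAt⟩
  · intro h
    by_cases h4 : DifferentiableAt ℝ (G (v 0)) (v 1)
    · left
      rw [← h]
      exact h4.hasDerivAt
    · right
      refine ⟨?_, ?_⟩
      · rintro ⟨y, hy⟩
        exact h4 hy.differentiableAt
      · rw [← h]
        exact deriv_zero_of_not_differentiableAt h4

/-! ## The gradient -/

/-- `u_x - i u_y` -/
noncomputable def grad (u : ℂ → ℝ) (z : ℂ) : ℂ :=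
  ⟨deriv (fun s => u ⟨s, z.im⟩) z.re, -deriv (fun t => u ⟨z.re, t⟩) z.im⟩

theorem grad_def (o : Omin L) {u : ℂ → ℝ} (hu : DF L (fun v : Fin 2 → ℝ => u ⟨v 0, v 1⟩)) :
    DC L (grad u) := by
  have h1 : DF L (fun v : Fin 2 → ℝ => deriv ((fun t s => u ⟨s, t⟩) (v 0)) (v 1)) :=
    dderiv o (G := fun t s => u ⟨s, t⟩) (DF.sub2 (f := fun s t => u ⟨s, t⟩) hu (DF.var 1) (DF.var 0))
  have h2 : DF L (fun v : Fin 2 → ℝ => deriv ((fun s t => u ⟨s, t⟩) (v 0)) (v 1)) :=
    dderiv o (G := fun s t => u ⟨s, t⟩) hu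
  constructor
  · exact DF.sub2 (f := fun t s => deriv (fun s => u ⟨s, t⟩) s) h1 (DF.var 1) (DF.var 0)
  · exact o.dneg (DF.sub2 (f := fun s t => deriv (fun t => u ⟨s, t⟩) t) h2 (DF.var 0) (DF.var 1))

theorem grad_eq {u : ℂ → ℝ} {z : ℂ} (hu : DifferentiableAt ℝ u z) :
    grad u z = fderiv ℝ u z 1 - Complex.I * fderiv ℝ u z Complex.I := by
  have hf := hu.hasFDerivAt
  have e1 : HasDerivAt (fun s : ℝ => u ⟨s, z.im⟩) (fderiv ℝ u z 1) z.re := by
    have h1 : HasDerivAt (fun s : ℝ => (⟨s, z.im⟩ : ℂ)) 1 z.re := by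
      have h2 : HasDerivAt (fun s : ℝ => ((s : ℝ) : ℂ) + z.im * Complex.I) 1 z.re :=
        (Complex.ofRealCLM.hasDerivAt (x := z.re)).add_const _
      have h3 : (fun s : ℝ => (⟨s, z.im⟩ : ℂ)) = fun s : ℝ => ((s : ℝ) : ℂ) + z.im * Complex.I := by
        funext s
        apply Complex.ext <;> simp
      rw [h3]
      exact h2
    exact HasFDerivAt.comp_hasDerivAt (l := u) (f := fun s : ℝ => (⟨s, z.im⟩ : ℂ)) z.re hf h1
  have e2 : HasDerivAt (fun t : ℝ => u ⟨z.re, t⟩) (fderiv ℝ u z Complex.I) z.im := by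
    have h1 : HasDerivAt (fun t : ℝ => (⟨z.re, t⟩ : ℂ)) Complex.I z.im := by
      have h2 : HasDerivAt (fun t : ℝ => (z.re : ℂ) + ((t : ℝ) : ℂ) * Complex.I)
          (1 * Complex.I) z.im :=
        ((Complex.ofRealCLM.hasDerivAt (x := z.im)).mul_const Complex.I).const_add _
      rw [one_mul] at h2
      have h3 : (fun t : ℝ => (⟨z.re, t⟩ : ℂ)) =
          fun t : ℝ => (z.re : ℂ) + ((t : ℝ) : ℂ) * Complex.I := by
        funext t
        apply Complex.ext <;> simp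
      rw [h3]
      exact h2
    exact HasFDerivAt.comp_hasDerivAt (l := u) (f := fun t : ℝ => (⟨z.re, t⟩ : ℂ)) z.im hf h1
  unfold grad
  rw [e1.deriv, e2.deriv]
  apply Complex.ext <;> simp

theorem grad_diff {u : ℂ → ℝ} {z : ℂ} (hu : HarmonicAt u z) : DifferentiableAt ℂ (grad u) z := by
  refine (HarmonicAt.differentiableAt_complex_partial hu).congr_of_eventuallyEq ?_
  filter_upwards [hu.eventually] with w hw
  exact grad_eq (hw.1.differentiableAt (by norm_num))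

theorem grad_axis {u : ℂ → ℝ} {x : ℝ} (hu : HarmonicAt u ((x : ℝ) : ℂ)) :
    HasDerivAt (fun s : ℝ => u ((s : ℝ) : ℂ)) (grad u ((x : ℝ) : ℂ)).re x := by
  have hf := (hu.1.differentiableAt (by norm_num)).hasFDerivAt
  have h1 : HasDerivAt (fun s : ℝ => ((s : ℝ) : ℂ)) 1 x := Complex.ofRealCLM.hasDerivAt (x := x)
  have h2 := HasFDerivAt.comp_hasDerivAt (l := u) (f := fun s : ℝ => ((s : ℝ) : ℂ)) x hf h1
  rw [grad_eq (hu.1.differentiableAt (by norm_num))]
  have h3 : ((fderiv ℝ u ((x : ℝ) : ℂ) 1 : ℂ) - Complex.I *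
      fderiv ℝ u ((x : ℝ) : ℂ) Complex.I).re = fderiv ℝ u ((x : ℝ) : ℂ) 1 := by simp
  rw [h3]
  exact h2

/-! ## Iterated exponentials -/

theorem le_iter (n : ℕ) (x : ℝ) : x ≤ Real.exp^[n] x := by
  have h : id ≤ Real.exp := fun y => by
    have := Real.add_one_le_exp y
    simp only [id]
    linarith
  exact Function.id_le_iterate_of_id_le h n x

theorem iter_tt (n : ℕ) : Tendsto (Real.exp^[n]) atTop atTop := Real.tendsto_exp_atTop.iterate n

theorem iter_mono (n : ℕ) : Monotone (Real.exp^[n]) := Real.exp_monotone.iterate n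

theorem sq_exp (C : ℝ) : ∀ᶠ y : ℝ in atTop, C * y ^ 2 ≤ Real.exp y := by
  have h1 := (Real.isLittleO_pow_exp_atTop (n := 2)).bound
    (show (0 : ℝ) < 1 / (|C| + 1) by positivity)
  filter_upwards [h1] with y hy
  rw [Real.norm_eq_abs, Real.norm_eq_abs, abs_of_nonneg (sq_nonneg y),
    abs_of_pos (Real.exp_pos y)] at hy
  have h2 : (|C| + 1) * y ^ 2 ≤ Real.exp y := by
    have h3 : (|C| + 1) * y ^ 2 ≤ (|C| + 1) * (1 / (|C| + 1) * Real.exp y) :=
      mul_le_mul_of_nonneg_left hy (by positivity)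
    have h4 : (|C| + 1) * (1 / (|C| + 1) * Real.exp y) = Real.exp y := by
      field_simp
    rwa [h4] at h3
  nlinarith [le_abs_self C, sq_nonneg y]

/-! ## The growth of a definable harmonic function -/

theorem partB_aux (o : Omin L) (hexp : DF L (fun v : Fin 1 → ℝ => Real.exp (v 0))) {u : ℂ → ℝ}
    (hu : DF L (fun v : Fin 2 → ℝ => u ⟨v 0, v 1⟩)) (N : ℕ)
    (hh : ∀ᶠ x : ℝ in atTop, HarmonicOnNhd u (ball ((x : ℝ) : ℂ) (1 / Real.exp^[N] x))) :
    (fun x : ℝ => u ((x : ℝ) : ℂ)) =O[atTop] (Real.exp^[N + 3]) := by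
  set E : ℝ → ℝ := Real.exp^[N] with hE
  have hr : DF L (fun v : Fin 1 → ℝ => 1 / E (v 0)) := by
    have h1 := o.dinv (Omin.iter hexp N (DF.var (0 : Fin 1)))
    have e : (fun v : Fin 1 → ℝ => 1 / E (v 0)) = fun v => (Real.exp^[N] (v 0))⁻¹ := by
      funext v
      rw [one_div]
    rw [e]
    exact h1
  have hE1 : ∀ᶠ x in atTop, 1 ≤ E x := (iter_tt N).eventually_ge_atTop 1
  obtain ⟨C, hC⟩ := partA_axis o (grad_def o hu) (r := fun x => 1 / E x) hr (by
    filter_upwards [hE1, hh, eventually_ge_atTop 1] with x h1 h2 h3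
    refine ⟨by positivity, ?_, fun z hz => (grad_diff (h2 z hz)).differentiableWithinAt⟩
    rw [div_le_iff₀ (by linarith)]
    nlinarith)
  obtain ⟨b, hb⟩ := eventually_atTop.1 ((hE1.and hh).and (hC.and (eventually_ge_atTop 1)))
  have hb1 : 1 ≤ b := (hb b le_rfl).2.2
  have hmemball : ∀ x : ℝ, b ≤ x → ((x : ℝ) : ℂ) ∈ ball ((x : ℝ) : ℂ) (1 / E x) := by
    intro x hx
    apply mem_ball_self
    have := (hb x hx).1.1
    positivity
  have hhar : ∀ x : ℝ, b ≤ x → HarmonicAt u ((x : ℝ) : ℂ) := fun x hx =>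
    (hb x hx).1.2 _ (hmemball x hx)
  -- the differential inequality
  have hder : ∀ x : ℝ, b ≤ x →
      ‖deriv (grad u) ((x : ℝ) : ℂ)‖ ≤ |C| * E x * ‖grad u ((x : ℝ) : ℂ)‖ := by
    intro x hx
    have h1 := (hb x hx).2.1
    have h2 := (hb x hx).1.1
    have h3 : 0 < E x := by linarith
    rw [one_div, inv_mul_le_iff₀ h3] at h1
    refine h1.trans ?_
    have h4 : E x * (C * ‖grad u ((x : ℝ) : ℂ)‖) = C * (E x * ‖grad u ((x : ℝ) : ℂ)‖) := by ring
    rw [h4, mul_assoc]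
    exact mul_le_mul_of_nonneg_right (le_abs_self C) (by positivity)
  have hF : ∀ x : ℝ, b ≤ x → HasDerivAt (fun s : ℝ => grad u ((s : ℝ) : ℂ))
      (deriv (grad u) ((x : ℝ) : ℂ)) x := fun x hx =>
    (grad_diff (hhar x hx)).hasDerivAt.comp_ofReal
  set A := ‖grad u ((b : ℝ) : ℂ)‖ with hA
  have hA0 : 0 ≤ A := norm_nonneg _
  have hgr : ∀ X : ℝ, b ≤ X → ∀ x ∈ Icc b X,
      ‖grad u ((x : ℝ) : ℂ)‖ ≤ A * Real.exp (|C| * E X * X) := by
    intro X hX x hx
    have hEX : 0 ≤ E X := by linarith [(hb X hX).1.1]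
    have h1 := norm_le_gronwallBound_of_norm_deriv_right_le (f := fun s : ℝ => grad u ((s : ℝ) : ℂ))
      (f' := fun s : ℝ => deriv (grad u) ((s : ℝ) : ℂ)) (δ := A) (K := |C| * E X) (ε := 0)
      (a := b) (b := X) (fun s hs => (hF s hs.1).continuousAt.continuousWithinAt)
      (fun s hs => (hF s hs.1).hasDerivWithinAt) le_rfl (fun s hs => by
        rw [add_zero]
        refine (hder s hs.1).trans ?_
        refine mul_le_mul_of_nonneg_right ?_ (norm_nonneg _)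
        exact mul_le_mul_of_nonneg_left (iter_mono N hs.2.le) (abs_nonneg C)) x hx
    rw [gronwallBound_ε0] at h1
    refine h1.trans ?_
    refine mul_le_mul_of_nonneg_left (Real.exp_le_exp.2 ?_) hA0
    refine mul_le_mul_of_nonneg_left ?_ (by positivity)
    linarith [hx.2]
  have hval : ∀ X : ℝ, b ≤ X → |u ((X : ℝ) : ℂ)| ≤
      |u ((b : ℝ) : ℂ)| + A * Real.exp (|C| * E X * X) * X := by
    intro X hX
    have h1 := Convex.norm_image_sub_le_of_norm_hasDerivWithin_le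
      (f := fun s : ℝ => u ((s : ℝ) : ℂ)) (f' := fun s : ℝ => (grad u ((s : ℝ) : ℂ)).re)
      (s := Icc b X) (C := A * Real.exp (|C| * E X * X))
      (fun s hs => (grad_axis (hhar s hs.1)).hasDerivWithinAt)
      (fun s hs => (Complex.abs_re_le_norm _).trans (hgr X hX s hs)) (convex_Icc b X)
      ⟨le_rfl, hX⟩ ⟨hX, le_rfl⟩
    rw [Real.norm_eq_abs, Real.norm_eq_abs, abs_of_nonneg (by linarith : (0 : ℝ) ≤ X - b)] at h1
    have h2 : |u ((X : ℝ) : ℂ)| ≤ |u ((b : ℝ) : ℂ)| + |u ((X : ℝ) : ℂ) - u ((b : ℝ) : ℂ)| := by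
      have h3 := abs_add_le (u ((b : ℝ) : ℂ)) (u ((X : ℝ) : ℂ) - u ((b : ℝ) : ℂ))
      rwa [add_sub_cancel] at h3
    have h3 : A * Real.exp (|C| * E X * X) * (X - b) ≤ A * Real.exp (|C| * E X * X) * X :=
      mul_le_mul_of_nonneg_left (by linarith) (by positivity)
    linarith
  -- asymptotics
  have e1 : ∀ᶠ X in atTop, |C| * E X * X ≤ Real.exp^[N + 1] X := by
    filter_upwards [(iter_tt N).eventually (sq_exp |C|), eventually_ge_atTop 1, hE1] with X h1 h2 h3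
    have h4 : Real.exp^[N + 1] X = Real.exp (E X) := by
      rw [Function.iterate_succ_apply']
    rw [h4]
    refine le_trans ?_ h1
    have h5 : X ≤ E X := le_iter N X
    have h6 : E X * X ≤ E X ^ 2 := by nlinarith
    have h7 := mul_le_mul_of_nonneg_left h6 (abs_nonneg C)
    calc |C| * E X * X = |C| * (E X * X) := by ring
      _ ≤ |C| * E X ^ 2 := h7
      _ = _ := rfl
  refine Asymptotics.IsBigO.of_bound (|u ((b : ℝ) : ℂ)| + A) ?_
  filter_upwards [e1, eventually_ge_atTop b, (iter_tt (N + 2)).eventually (sq_exp 1),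
    (iter_tt (N + 2)).eventually_ge_atTop 1] with X h1 h2 h3 h4
  rw [Real.norm_eq_abs, Real.norm_eq_abs]
  have h5 : Real.exp^[N + 3] X = Real.exp (Real.exp^[N + 2] X) := by
    rw [Function.iterate_succ_apply']
  have h6 : Real.exp^[N + 2] X = Real.exp (Real.exp^[N + 1] X) := by
    rw [Function.iterate_succ_apply']
  set T := Real.exp^[N + 2] X with hT
  rw [h5, abs_of_pos (Real.exp_pos T)]
  have h7 : Real.exp (|C| * E X * X) ≤ T := by
    rw [h6]
    exact Real.exp_le_exp.2 h1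
  have h8 : X ≤ T := le_iter (N + 2) X
  have h9 : A * Real.exp (|C| * E X * X) * X ≤ A * T ^ 2 := by
    have h10 : Real.exp (|C| * E X * X) * X ≤ T * T :=
      mul_le_mul h7 h8 (by linarith) (by linarith)
    calc A * Real.exp (|C| * E X * X) * X = A * (Real.exp (|C| * E X * X) * X) := by ring
      _ ≤ A * (T * T) := mul_le_mul_of_nonneg_left h10 hA0
      _ = A * T ^ 2 := by ring
  have h10 : |u ((b : ℝ) : ℂ)| ≤ |u ((b : ℝ) : ℂ)| * T ^ 2 := by
    have h11 : (1 : ℝ) ≤ T ^ 2 := one_le_pow₀ h4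
    nlinarith [abs_nonneg (u ((b : ℝ) : ℂ))]
  calc |u ((X : ℝ) : ℂ)| ≤ |u ((b : ℝ) : ℂ)| + A * Real.exp (|C| * E X * X) * X := hval X h2
    _ ≤ (|u ((b : ℝ) : ℂ)| + A) * T ^ 2 := by linarith
    _ ≤ (|u ((b : ℝ) : ℂ)| + A) * Real.exp T := by
        refine mul_le_mul_of_nonneg_left ?_ (by positivity)
        linarith

theorem partB (o : Omin L) {u : ℂ → ℝ} (hu : DF L (fun v : Fin 2 → ℝ => u ⟨v 0, v 1⟩)) (N : ℕ)
    (hh : ∀ᶠ x : ℝ in atTop, HarmonicOnNhd u (ball ((x : ℝ) : ℂ) (1 / Real.exp^[N] x))) :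
    ∃ M : ℕ, (fun x : ℝ => u ((x : ℝ) : ℂ)) =O[atTop] (Real.exp^[M]) := by
  by_contra hcon
  push Not at hcon
  have hf : DF L (fun v : Fin 1 → ℝ => u (((v 0 : ℝ)) : ℂ)) :=
    DF.sub2 (f := fun s t => u ⟨s, t⟩) hu (DF.var 0) (DF.const 0)
  have h1 := (o.slow (f := fun x : ℝ => u ((x : ℝ) : ℂ)) hf hcon).1
  exact hcon (N + 3) (partB_aux o h1 hu N hh)

theorem partC (o : Omin L) {F : ℂ → ℂ} (hF : DC L F) (N : ℕ)
    (hh : ∀ᶠ x : ℝ in atTop, DifferentiableOn ℂ F (ball ((x : ℝ) : ℂ) (1 / Real.exp^[N] x))) :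
    ∃ M : ℕ, (fun x : ℝ => F ((x : ℝ) : ℂ)) =O[atTop] (Real.exp^[M]) := by
  obtain ⟨M₁, h₁⟩ := partB o (u := fun z => (F z).re) hF.re N (by
    filter_upwards [hh] with x hx z hz
    exact (hx.analyticAt (isOpen_ball.mem_nhds hz)).harmonicAt_re)
  obtain ⟨M₂, h₂⟩ := partB o (u := fun z => (F z).im) hF.im N (by
    filter_upwards [hh] with x hx z hz
    exact (hx.analyticAt (isOpen_ball.mem_nhds hz)).harmonicAt_im)
  have hmono : ∀ m n : ℕ, m ≤ n → (Real.exp^[m]) =O[atTop] (Real.exp^[n]) := by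
    intro m n hmn
    refine Asymptotics.IsBigO.of_bound 1 ?_
    filter_upwards [(iter_tt m).eventually_ge_atTop 0] with x hx
    obtain ⟨k, rfl⟩ := Nat.exists_eq_add_of_le hmn
    have h1 : Real.exp^[m + k] x = Real.exp^[k] (Real.exp^[m] x) := by
      rw [add_comm, Function.iterate_add_apply]
    have h2 := le_iter k (Real.exp^[m] x)
    rw [h1, Real.norm_eq_abs, Real.norm_eq_abs, abs_of_nonneg hx, one_mul,
      abs_of_nonneg (hx.trans h2)]
    exact h2
  refine ⟨max M₁ M₂, ?_⟩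
  have h3 := (h₁.trans (hmono M₁ (max M₁ M₂) (le_max_left _ _))).norm_left.add
    (h₂.trans (hmono M₂ (max M₁ M₂) (le_max_right _ _))).norm_left
  refine Asymptotics.IsBigO.trans (Asymptotics.IsBigO.of_bound 1 ?_) h3
  refine Eventually.of_forall fun x => ?_
  rw [one_mul]
  refine (Complex.norm_le_abs_re_add_abs_im _).trans ?_
  exact le_abs_self _

end Pool.Agent.Work.MP_973fa8.h17
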