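import Pool.Agent.Work.MP_973fa8_h17.HB

/-! # MP_973fa8: the radius of a definable harmonic extension (helper17) -/

set_option autoImplicit false

namespace Pool.Agent.Work.MP_973fa8.h17

open Set Filter Topology Metric Pool.Agent.Work.MP_973fa8.helper46 InnerProductSpace

variable {L : FirstOrder.Language.{0, 0}} [L.Structure ℝ] {α : Type}

/-! ## Complex differentiability is definable -/

/-- the remainder of the first order Taylor expansion is small -/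
def TY (F : ℂ → ℂ) (s t a b ε h k : ℝ) : Prop :=
  ((F ⟨s + h, t + k⟩).re - (F ⟨s, t⟩).re - (a * h - b * k)) ^ 2 +
    ((F ⟨s + h, t + k⟩).im - (F ⟨s, t⟩).im - (a * k + b * h)) ^ 2 ≤ ε ^ 2 * (h ^ 2 + k ^ 2)

def CD (F : ℂ → ℂ) (s t : ℝ) : Prop :=
  ∃ a, ∃ b, ∀ ε, 0 < ε → ∃ δ, 0 < δ ∧ ∀ h, ∀ k, h ^ 2 + k ^ 2 < δ ^ 2 → TY F s t a b ε h k

theorem norm_sq_eq (w : ℂ) : ‖w‖ ^ 2 = w.re ^ 2 + w.im ^ 2 := by
  rw [← Complex.normSq_eq_norm_sq, Complex.normSq_apply]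
  ring

theorem norm_sq_mk (h k : ℝ) : ‖(⟨h, k⟩ : ℂ)‖ ^ 2 = h ^ 2 + k ^ 2 := norm_sq_eq _

theorem ty_iff (F : ℂ → ℂ) (s t a b ε h k : ℝ) (hε : 0 < ε) : TY F s t a b ε h k ↔
    ‖F (⟨s, t⟩ + ⟨h, k⟩) - F ⟨s, t⟩ - ⟨h, k⟩ * ⟨a, b⟩‖ ≤ ε * ‖(⟨h, k⟩ : ℂ)‖ := by
  have e : (⟨s, t⟩ : ℂ) + ⟨h, k⟩ = ⟨s + h, t + k⟩ := rfl
  rw [e, ← pow_le_pow_iff_left₀ (norm_nonneg _) (by positivity) (show (2 : ℕ) ≠ 0 by norm_num),
    mul_pow, norm_sq_mk, norm_sq_eq]
  unfold TY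
  simp only [Complex.sub_re, Complex.sub_im, Complex.mul_re, Complex.mul_im]
  have e1 : h * a - k * b = a * h - b * k := by ring
  have e2 : h * b + k * a = a * k + b * h := by ring
  rw [e1, e2]

theorem cd_iff (F : ℂ → ℂ) (s t : ℝ) : CD F s t ↔ DifferentiableAt ℂ F ⟨s, t⟩ := by
  have key : ∀ a b : ℝ, HasDerivAt F ⟨a, b⟩ (⟨s, t⟩ : ℂ) ↔ ∀ ε, 0 < ε → ∃ δ, 0 < δ ∧
      ∀ h, ∀ k, h ^ 2 + k ^ 2 < δ ^ 2 → TY F s t a b ε h k := by
    intro a b
    rw [hasDerivAt_iff_isLittleO_nhds_zero, Asymptotics.isLittleO_iff]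
    simp only [Metric.eventually_nhds_iff, dist_zero_right, smul_eq_mul]
    constructor
    · intro H ε hε
      obtain ⟨δ, hδ, h1⟩ := H hε
      refine ⟨δ, hδ, fun h k hhk => (ty_iff F s t a b ε h k hε).2 (h1 ?_)⟩
      rw [← norm_sq_mk] at hhk
      exact lt_of_pow_lt_pow_left₀ 2 hδ.le hhk
    · intro H ε hε
      obtain ⟨δ, hδ, h1⟩ := H ε hε
      refine ⟨δ, hδ, fun w hw => ?_⟩
      have h2 := h1 w.re w.im (by
        rw [← norm_sq_mk]
        exact pow_lt_pow_left₀ hw (norm_nonneg _) (by norm_num))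
      exact (ty_iff F s t a b ε w.re w.im hε).1 h2
  constructor
  · rintro ⟨a, b, h⟩
    exact ((key a b).2 h).differentiableAt
  · intro h
    exact ⟨_, _, (key (deriv F ⟨s, t⟩).re (deriv F ⟨s, t⟩).im).1 h.hasDerivAt⟩

theorem cd_def (o : Omin L) {F : ℂ → ℂ} (hF : DC L F) :
    DP L (fun v : Fin 2 → ℝ => CD F (v 0) (v 1)) := by
  unfold CD TY
  apply DP.ex
  apply DP.ex
  apply DP.all
  apply DP.imp (o.dlt (DF.const _) (DF.var _))
  apply DP.ex
  apply DP.and (o.dlt (DF.const _) (DF.var _))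
  apply DP.all
  apply DP.all
  apply DP.imp (o.dlt (o.dadd (o.dpow (DF.var _) 2) (o.dpow (DF.var _) 2)) (o.dpow (DF.var _) 2))
  apply o.dle
  · apply o.dadd
    · apply o.dpow
      apply o.dsub
      · exact o.dsub (hF.dre (o.dadd (DF.var _) (DF.var _)) (o.dadd (DF.var _) (DF.var _)))
          (hF.dre (DF.var _) (DF.var _))
      · exact o.dsub (o.dmul (DF.var _) (DF.var _)) (o.dmul (DF.var _) (DF.var _))
    · apply o.dpow
      apply o.dsub
      · exact o.dsub (hF.dim (o.dadd (DF.var _) (DF.var _)) (o.dadd (DF.var _) (DF.var _)))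
          (hF.dim (DF.var _) (DF.var _))
      · exact o.dadd (o.dmul (DF.var _) (DF.var _)) (o.dmul (DF.var _) (DF.var _))
  · exact o.dmul (o.dpow (DF.var _) 2) (o.dadd (o.dpow (DF.var _) 2) (o.dpow (DF.var _) 2))

/-! ## The radius -/

/-- `ρ` is `1` or at least the distance of `x` and a point where `F` is not differentiable -/
def RS (F : ℂ → ℂ) (x ρ : ℝ) : Prop :=
  ρ = 1 ∨ (0 ≤ ρ ∧ ∃ s, ∃ t, (s - x) ^ 2 + t ^ 2 ≤ ρ ^ 2 ∧ ¬ CD F s t)

/-- the distance of `x` and the points where `F` is not differentiable, or `1` -/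
noncomputable def rad (F : ℂ → ℂ) (x : ℝ) : ℝ := sInf {ρ | RS F x ρ}

theorem rs_bdd (F : ℂ → ℂ) (x : ℝ) : BddBelow {ρ | RS F x ρ} :=
  ⟨0, by
    rintro ρ (rfl | ⟨h, -⟩)
    · exact zero_le_one
    · exact h⟩

theorem rs_ne (F : ℂ → ℂ) (x : ℝ) : ∃ ρ, RS F x ρ := ⟨1, Or.inl rfl⟩

theorem rad_def (o : Omin L) {F : ℂ → ℂ} (hF : DC L F) :
    DF L (fun v : Fin 1 → ℝ => rad F (v 0)) := by
  unfold rad
  apply o.dinf (S := fun v ρ => RS F (v 0) ρ)
  · unfold RS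
    apply DP.or ((DF.var _).eq (DF.const 1))
    apply DP.and (o.dle (DF.const 0) (DF.var _))
    apply DP.ex
    apply DP.ex
    apply DP.and
    · exact o.dle (o.dadd (o.dpow (o.dsub (DF.var _) (DF.var _)) 2) (o.dpow (DF.var _) 2))
        (o.dpow (DF.var _) 2)
    · exact (DP.sub2 (P := fun s t => CD F s t) (cd_def o hF) (DF.var _) (DF.var _)).not
  · exact fun v => rs_ne F (v 0)
  · exact fun v => rs_bdd F (v 0)

theorem rad_le (F : ℂ → ℂ) (x : ℝ) : rad F x ≤ 1 := csInf_le (rs_bdd F x) (Or.inl rfl)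

theorem rad_diff (F : ℂ → ℂ) (x : ℝ) : DifferentiableOn ℂ F (ball ((x : ℝ) : ℂ) (rad F x)) := by
  intro z hz
  refine DifferentiableAt.differentiableWithinAt ?_
  by_contra hn
  have h1 : ¬ CD F z.re z.im := fun h => hn ((cd_iff F z.re z.im).1 h)
  have h2 : RS F x ‖z - ((x : ℝ) : ℂ)‖ := by
    refine Or.inr ⟨norm_nonneg _, z.re, z.im, le_of_eq ?_, h1⟩
    rw [← Complex.normSq_eq_norm_sq, Complex.normSq_apply]
    simp
    ring
  have h3 := csInf_le (rs_bdd F x) h2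
  rw [mem_ball, dist_eq_norm] at hz
  exact absurd hz (not_lt.2 h3)

theorem le_rad {F : ℂ → ℂ} {x r : ℝ} (h : DifferentiableOn ℂ F (ball ((x : ℝ) : ℂ) r)) :
    min 1 r ≤ rad F x := by
  apply le_csInf (rs_ne F x)
  rintro ρ (rfl | ⟨hρ, s, t, hst, hn⟩)
  · exact min_le_left _ _
  · refine (min_le_right _ _).trans ?_
    by_contra hlt
    push Not at hlt
    apply hn
    rw [cd_iff]
    refine h.differentiableAt (isOpen_ball.mem_nhds ?_)
    have h1 : (⟨s, t⟩ : ℂ) ∈ ball (⟨x, 0⟩ : ℂ) r := by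
      rw [mem_ball_iff (hρ.trans hlt.le), sub_zero]
      exact hst.trans_lt (pow_lt_pow_left₀ hlt hρ (by norm_num))
    exact h1

/-! ## The theorem -/

theorem thmH (o : Omin L) {u : ℂ → ℝ} (hu : DF L (fun v : Fin 2 → ℝ => u ⟨v 0, v 1⟩))
    {r : ℝ → ℝ} {a : ℝ} (hr0 : ∀ x, a ≤ x → 0 < r x) (hrm : AntitoneOn r (Ici a))
    (hh : ∀ x, a ≤ x → HarmonicOnNhd u (ball ((x : ℝ) : ℂ) (r x))) :
    ∃ C : ℝ, ∀ᶠ x in atTop, |u ((x : ℝ) : ℂ)| ≤ Real.exp (C * (x / r x)) := by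
  set F := grad u with hFdef
  have hFd := grad_def o hu
  have hdF : ∀ x, a ≤ x → DifferentiableOn ℂ F (ball ((x : ℝ) : ℂ) (r x)) := fun x hx z hz =>
    (grad_diff (hh x hx z hz)).differentiableWithinAt
  have hle : ∀ x, a ≤ x → min 1 (r x) ≤ rad F x := fun x hx => le_rad (hdF x hx)
  obtain ⟨C, hC⟩ := partA_axis o hFd (r := rad F) (rad_def o hFd) (by
    filter_upwards [eventually_ge_atTop a, eventually_ge_atTop 1] with x h1 h2
    refine ⟨lt_of_lt_of_le (lt_min one_pos (hr0 x h1)) (hle x h1), (rad_le F x).trans h2,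
      rad_diff F x⟩)
  obtain ⟨b, hb⟩ := eventually_atTop.1 ((hC.and (eventually_ge_atTop a)).and
    (eventually_ge_atTop 1))
  have hb1 : 1 ≤ b := (hb b le_rfl).2
  have hba : a ≤ b := (hb b le_rfl).1.2
  have hhar : ∀ x : ℝ, b ≤ x → HarmonicAt u ((x : ℝ) : ℂ) := fun x hx =>
    hh x (hba.trans hx) _ (mem_ball_self (hr0 x (hba.trans hx)))
  set ρ : ℝ → ℝ := fun x => min 1 (r x) with hρ
  have hρ0 : ∀ x, b ≤ x → 0 < ρ x := fun x hx => lt_min one_pos (hr0 x (hba.trans hx))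
  have hρ1 : ∀ x, ρ x ≤ 1 := fun x => min_le_left _ _
  have hρm : ∀ x y, b ≤ x → x ≤ y → ρ y ≤ ρ x := fun x y hx hxy =>
    min_le_min le_rfl (hrm (hba.trans hx) (hba.trans (hx.trans hxy)) hxy)
  -- the differential inequality
  have hder : ∀ x : ℝ, b ≤ x → ‖deriv F ((x : ℝ) : ℂ)‖ ≤ |C| / ρ x * ‖F ((x : ℝ) : ℂ)‖ := by
    intro x hx
    have h1 := (hb x hx).1.1
    have h2 := hρ0 x hx
    have h3 : ρ x ≤ rad F x := hle x (hba.trans hx)
    rw [div_mul_eq_mul_div, le_div_iff₀ h2]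
    calc ‖deriv F ((x : ℝ) : ℂ)‖ * ρ x ≤ ‖deriv F ((x : ℝ) : ℂ)‖ * rad F x :=
          mul_le_mul_of_nonneg_left h3 (norm_nonneg _)
      _ = rad F x * ‖deriv F ((x : ℝ) : ℂ)‖ := mul_comm _ _
      _ ≤ C * ‖F ((x : ℝ) : ℂ)‖ := h1
      _ ≤ |C| * ‖F ((x : ℝ) : ℂ)‖ := mul_le_mul_of_nonneg_right (le_abs_self C) (norm_nonneg _)
  have hF : ∀ x : ℝ, b ≤ x → HasDerivAt (fun s : ℝ => F ((s : ℝ) : ℂ))
      (deriv F ((x : ℝ) : ℂ)) x := fun x hx =>
    (grad_diff (hhar x hx)).hasDerivAt.comp_ofReal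
  set A := ‖F ((b : ℝ) : ℂ)‖ with hA
  have hA0 : 0 ≤ A := norm_nonneg _
  have hgr : ∀ X : ℝ, b ≤ X → ∀ x ∈ Icc b X,
      ‖F ((x : ℝ) : ℂ)‖ ≤ A * Real.exp (|C| / ρ X * X) := by
    intro X hX x hx
    have hρX := hρ0 X hX
    have h1 := norm_le_gronwallBound_of_norm_deriv_right_le (f := fun s : ℝ => F ((s : ℝ) : ℂ))
      (f' := fun s : ℝ => deriv F ((s : ℝ) : ℂ)) (δ := A) (K := |C| / ρ X) (ε := 0)
      (a := b) (b := X) (fun s hs => (hF s hs.1).continuousAt.continuousWithinAt)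
      (fun s hs => (hF s hs.1).hasDerivWithinAt) le_rfl (fun s hs => by
        rw [add_zero]
        refine (hder s hs.1).trans ?_
        refine mul_le_mul_of_nonneg_right ?_ (norm_nonneg _)
        exact div_le_div_of_nonneg_left (abs_nonneg C) hρX (hρm s X hs.1 hs.2.le)) x hx
    rw [gronwallBound_ε0] at h1
    refine h1.trans ?_
    refine mul_le_mul_of_nonneg_left (Real.exp_le_exp.2 ?_) hA0
    refine mul_le_mul_of_nonneg_left ?_ (by positivity)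
    linarith [hx.2]
  have hval : ∀ X : ℝ, b ≤ X → |u ((X : ℝ) : ℂ)| ≤
      |u ((b : ℝ) : ℂ)| + A * Real.exp (|C| / ρ X * X) * X := by
    intro X hX
    have h1 := Convex.norm_image_sub_le_of_norm_hasDerivWithin_le
      (f := fun s : ℝ => u ((s : ℝ) : ℂ)) (f' := fun s : ℝ => (F ((s : ℝ) : ℂ)).re)
      (s := Icc b X) (C := A * Real.exp (|C| / ρ X * X))
      (fun s hs => (grad_axis (hhar s hs.1)).hasDerivWithinAt)
      (fun s hs => (Complex.abs_re_le_norm _).trans (hgr X hX s hs)) (convex_Icc b X)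
      ⟨le_rfl, hX⟩ ⟨hX, le_rfl⟩
    rw [Real.norm_eq_abs, Real.norm_eq_abs, abs_of_nonneg (by linarith : (0 : ℝ) ≤ X - b)] at h1
    have h2 : |u ((X : ℝ) : ℂ)| ≤ |u ((b : ℝ) : ℂ)| + |u ((X : ℝ) : ℂ) - u ((b : ℝ) : ℂ)| := by
      have h3 := abs_add_le (u ((b : ℝ) : ℂ)) (u ((X : ℝ) : ℂ) - u ((b : ℝ) : ℂ))
      rwa [add_sub_cancel] at h3
    have h3 : A * Real.exp (|C| / ρ X * X) * (X - b) ≤ A * Real.exp (|C| / ρ X * X) * X :=
      mul_le_mul_of_nonneg_left (by linarith) (by positivity)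
    linarith
  -- the end
  set m : ℝ := max 1 (r b) with hm
  refine ⟨(|C| + 1) * m, ?_⟩
  filter_upwards [eventually_ge_atTop b, sq_exp (|u ((b : ℝ) : ℂ)| + A)] with X hX hX2
  have hX1 : 1 ≤ X := hb1.trans hX
  have hρX := hρ0 X hX
  have hrX := hr0 X (hba.trans hX)
  have hCX : 0 ≤ |C| / ρ X * X := by positivity
  have hE1 : 1 ≤ Real.exp (|C| / ρ X * X) := Real.one_le_exp hCX
  have h1 : |u ((b : ℝ) : ℂ)| + A * Real.exp (|C| / ρ X * X) * X ≤
      (|u ((b : ℝ) : ℂ)| + A) * X ^ 2 * Real.exp (|C| / ρ X * X) := by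
    have e1 : |u ((b : ℝ) : ℂ)| ≤ |u ((b : ℝ) : ℂ)| * X ^ 2 * Real.exp (|C| / ρ X * X) := by
      rw [mul_assoc]
      refine le_mul_of_one_le_right (abs_nonneg _) ?_
      exact one_le_mul_of_one_le_of_one_le (one_le_pow₀ hX1) hE1
    have e2 : A * Real.exp (|C| / ρ X * X) * X ≤ A * X ^ 2 * Real.exp (|C| / ρ X * X) := by
      have e3 : X ≤ X ^ 2 := by nlinarith
      calc A * Real.exp (|C| / ρ X * X) * X = A * Real.exp (|C| / ρ X * X) * X := rfl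
        _ ≤ A * Real.exp (|C| / ρ X * X) * X ^ 2 := mul_le_mul_of_nonneg_left e3 (by positivity)
        _ = _ := by ring
    calc _ ≤ |u ((b : ℝ) : ℂ)| * X ^ 2 * Real.exp (|C| / ρ X * X) +
          A * X ^ 2 * Real.exp (|C| / ρ X * X) := add_le_add e1 e2
      _ = _ := by ring
  have h2 : (|u ((b : ℝ) : ℂ)| + A) * X ^ 2 * Real.exp (|C| / ρ X * X) ≤
      Real.exp X * Real.exp (|C| / ρ X * X) := mul_le_mul_of_nonneg_right hX2 (Real.exp_pos _).le
  refine (hval X hX).trans (h1.trans (h2.trans ?_))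
  rw [← Real.exp_add]
  apply Real.exp_le_exp.2
  -- `X / ρ X ≤ m * (X / r X)`
  have h3 : X / ρ X ≤ m * (X / r X) := by
    have hrb : r X ≤ r b := hrm hba (hba.trans hX) hX
    rw [div_le_iff₀ hρX, mul_comm m, mul_assoc, div_mul_eq_mul_div, le_div_iff₀ hrX]
    have h4 : r X ≤ m * ρ X := by
      rcases le_total 1 (r X) with h | h
      · have e : ρ X = 1 := min_eq_left h
        rw [e, mul_one]
        exact hrb.trans (le_max_right _ _)
      · have e : ρ X = r X := min_eq_right h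
        rw [e]
        exact le_mul_of_one_le_left hrX.le (le_max_left _ _)
    exact mul_le_mul_of_nonneg_left h4 (by linarith)
  have h5 : X ≤ X / ρ X := by
    rw [le_div_iff₀ hρX]
    have := hρ1 X
    nlinarith
  calc X + |C| / ρ X * X = X + |C| * (X / ρ X) := by ring
    _ ≤ X / ρ X + |C| * (X / ρ X) := by linarith
    _ = (|C| + 1) * (X / ρ X) := by ring
    _ ≤ (|C| + 1) * (m * (X / r X)) := mul_le_mul_of_nonneg_left h3 (by positivity)
    _ = (|C| + 1) * m * (X / r X) := by ring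

end Pool.Agent.Work.MP_973fa8.h17
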