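import Pool.Agent.Work.MP_973fa8_h17.HC

/-! # MP_973fa8: growth of a definable harmonic function and its radius, all radii (helper17) -/

set_option autoImplicit false

namespace Pool.Agent.Work.MP_973fa8.h17

open Set Filter Topology Metric Pool.Agent.Work.MP_973fa8.helper46 InnerProductSpace MeasureTheory

variable {L : FirstOrder.Language.{0, 0}} [L.Structure ℝ]

/-- `ρ` is `x` or at least the distance of `x` and a point where `F` is not differentiable -/
def RT (F : ℂ → ℂ) (x ρ : ℝ) : Prop :=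
  ρ = x ∨ (0 ≤ ρ ∧ ∃ s, ∃ t, (s - x) ^ 2 + t ^ 2 ≤ ρ ^ 2 ∧ ¬ CD F s t)

/-- the distance of `x` and the points where `F` is not differentiable, or `x` -/
noncomputable def rax (F : ℂ → ℂ) (x : ℝ) : ℝ := sInf {ρ | RT F x ρ}

theorem rt_bdd (F : ℂ → ℂ) (x : ℝ) : BddBelow {ρ | RT F x ρ} :=
  ⟨min 0 x, by
    rintro ρ (rfl | ⟨h, -⟩)
    · exact min_le_right _ _
    · exact (min_le_left _ _).trans h⟩

theorem rt_ne (F : ℂ → ℂ) (x : ℝ) : ∃ ρ, RT F x ρ := ⟨x, Or.inl rfl⟩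

theorem rax_def (o : Omin L) {F : ℂ → ℂ} (hF : DC L F) :
    DF L (fun v : Fin 1 → ℝ => rax F (v 0)) := by
  unfold rax
  apply o.dinf (S := fun v ρ => RT F (v 0) ρ)
  · unfold RT
    apply DP.or ((DF.var _).eq (DF.var _))
    apply DP.and (o.dle (DF.const 0) (DF.var _))
    apply DP.ex
    apply DP.ex
    apply DP.and
    · exact o.dle (o.dadd (o.dpow (o.dsub (DF.var _) (DF.var _)) 2) (o.dpow (DF.var _) 2))
        (o.dpow (DF.var _) 2)
    · exact (DP.sub2 (P := fun s t => CD F s t) (cd_def o hF) (DF.var _) (DF.var _)).not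
  · exact fun v => rt_ne F (v 0)
  · exact fun v => rt_bdd F (v 0)

theorem rax_le (F : ℂ → ℂ) (x : ℝ) : rax F x ≤ x := csInf_le (rt_bdd F x) (Or.inl rfl)

theorem rax_diff (F : ℂ → ℂ) (x : ℝ) : DifferentiableOn ℂ F (ball ((x : ℝ) : ℂ) (rax F x)) := by
  intro z hz
  refine DifferentiableAt.differentiableWithinAt ?_
  by_contra hn
  have h1 : ¬ CD F z.re z.im := fun h => hn ((cd_iff F z.re z.im).1 h)
  have h2 : RT F x ‖z - ((x : ℝ) : ℂ)‖ := by
    refine Or.inr ⟨norm_nonneg _, z.re, z.im, le_of_eq ?_, h1⟩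
    rw [← Complex.normSq_eq_norm_sq, Complex.normSq_apply]
    simp
    ring
  have h3 := csInf_le (rt_bdd F x) h2
  rw [mem_ball, dist_eq_norm] at hz
  exact absurd hz (not_lt.2 h3)

theorem le_rax {F : ℂ → ℂ} {x r : ℝ} (h : DifferentiableOn ℂ F (ball ((x : ℝ) : ℂ) r)) :
    min x r ≤ rax F x := by
  apply le_csInf (rt_ne F x)
  rintro ρ (rfl | ⟨hρ, s, t, hst, hn⟩)
  · exact min_le_left _ _
  · refine (min_le_right _ _).trans ?_
    by_contra hlt
    push Not at hlt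
    apply hn
    rw [cd_iff]
    refine h.differentiableAt (isOpen_ball.mem_nhds ?_)
    have h1 : (⟨s, t⟩ : ℂ) ∈ ball (⟨x, 0⟩ : ℂ) r := by
      rw [mem_ball_iff (hρ.trans hlt.le), sub_zero]
      exact hst.trans_lt (pow_lt_pow_left₀ hlt hρ (by norm_num))
    exact h1

theorem rax_lip (F : ℂ → ℂ) (x y : ℝ) : rax F y ≤ rax F x + |x - y| := by
  rw [← sub_le_iff_le_add]
  apply le_csInf (rt_ne F x)
  rintro ρ (rfl | ⟨hρ, s, t, hst, hn⟩)
  · rw [sub_le_iff_le_add]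
    refine (rax_le F y).trans ?_
    have := neg_abs_le (ρ - y)
    linarith
  · rw [sub_le_iff_le_add]
    apply csInf_le (rt_bdd F y)
    refine Or.inr ⟨by positivity, s, t, ?_, hn⟩
    have e1 : (s - x) ^ 2 + t ^ 2 = ‖(⟨s - x, t⟩ : ℂ)‖ ^ 2 := (norm_sq_mk _ _).symm
    have e2 : (s - y) ^ 2 + t ^ 2 = ‖(⟨s - y, t⟩ : ℂ)‖ ^ 2 := (norm_sq_mk _ _).symm
    rw [e1] at hst
    rw [e2]
    have h1 : ‖(⟨s - x, t⟩ : ℂ)‖ ≤ ρ := le_of_sq_le_sq' hst hρ
    have h2 : (⟨s - y, t⟩ : ℂ) = ⟨s - x, t⟩ + ((x - y : ℝ) : ℂ) := by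
      apply Complex.ext
      · simp
      · simp
    have h3 : ‖(⟨s - y, t⟩ : ℂ)‖ ≤ ρ + |x - y| := by
      rw [h2]
      refine (norm_add_le _ _).trans (add_le_add h1 ?_)
      rw [Complex.norm_real, Real.norm_eq_abs]
    exact pow_le_pow_left₀ (norm_nonneg _) h3 2
where
  le_of_sq_le_sq' {p q : ℝ} (h : p ^ 2 ≤ q ^ 2) (hq : 0 ≤ q) : p ≤ q := by
    nlinarith [sq_nonneg (p + q), sq_nonneg (p - q)]

theorem rax_cont (F : ℂ → ℂ) : Continuous (rax F) := by
  have h : LipschitzWith 1 (rax F) := by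
    apply LipschitzWith.of_dist_le_mul
    intro x y
    rw [NNReal.coe_one, one_mul, Real.dist_eq, Real.dist_eq, abs_le]
    constructor
    · have := rax_lip F x y
      linarith
    · have := rax_lip F y x
      rw [abs_sub_comm] at this
      linarith
  exact h.continuous

end Pool.Agent.Work.MP_973fa8.h17
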