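import Pool.Agent.Work.MP_973fa8_h17.HD

/-! # MP_973fa8: growth of a definable harmonic function and its radius, all radii (helper17) -/

set_option autoImplicit false

namespace Pool.Agent.Work.MP_973fa8.h17

open Set Filter Topology Metric Pool.Agent.Work.MP_973fa8.helper46 InnerProductSpace MeasureTheory
  intervalIntegral

variable {L : FirstOrder.Language.{0, 0}} [L.Structure ℝ]

/-- Gronwall with a continuous coefficient -/
theorem gron {g g' : ℝ → ℂ} {k : ℝ → ℝ} (hk : Continuous k) {b : ℝ}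
    (hg : ∀ x, b ≤ x → HasDerivAt g (g' x) x) (h : ∀ x, b ≤ x → ‖g' x‖ ≤ k x * ‖g x‖) :
    ∀ x, b ≤ x → ‖g x‖ ≤ ‖g b‖ * Real.exp (∫ t in b..x, k t) := by
  intro x hx
  -- `H t = ‖g t‖² exp (- 2 ∫_b^t k)` is non-increasing
  set K : ℝ → ℝ := fun t => ∫ s in b..t, k s with hK
  have hKd : ∀ t, HasDerivAt K (k t) t := fun t =>
    intervalIntegral.integral_hasDerivAt_right (hk.intervalIntegrable _ _)
      (hk.stronglyMeasurableAtFilter _ _) hk.continuousAt
  set H : ℝ → ℝ := fun t => ‖g t‖ ^ 2 * Real.exp (-(2 * K t)) with hH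
  have hd : ∀ t, b ≤ t → HasDerivAt H
      (2 * (inner ℝ (g t) (g' t)) * Real.exp (-(2 * K t)) +
        ‖g t‖ ^ 2 * (Real.exp (-(2 * K t)) * (-(2 * k t)))) t := by
    intro t ht
    have h1 : HasDerivAt (fun s => ‖g s‖ ^ 2) (2 * (inner ℝ (g t) (g' t))) t :=
      (hg t ht).norm_sq
    have h2 : HasDerivAt (fun s => Real.exp (-(2 * K s)))
        (Real.exp (-(2 * K t)) * (-(2 * k t))) t := (((hKd t).const_mul 2).neg).exp
    exact h1.mul h2
  have hanti : AntitoneOn H (Icc b x) := by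
    apply antitoneOn_of_deriv_nonpos (convex_Icc b x)
    · exact fun t ht => (hd t ht.1).continuousAt.continuousWithinAt
    · intro t ht
      rw [interior_Icc] at ht
      exact (hd t ht.1.le).differentiableAt.differentiableWithinAt
    · intro t ht
      rw [interior_Icc] at ht
      rw [(hd t ht.1.le).deriv]
      have h1 : inner ℝ (g t) (g' t) ≤ ‖g t‖ * ‖g' t‖ := real_inner_le_norm _ _
      have h2 : ‖g t‖ * ‖g' t‖ ≤ ‖g t‖ * (k t * ‖g t‖) :=
        mul_le_mul_of_nonneg_left (h t ht.1.le) (norm_nonneg _)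
      have h3 := Real.exp_pos (-(2 * K t))
      have h4 : inner ℝ (g t) (g' t) ≤ k t * ‖g t‖ ^ 2 := by nlinarith
      nlinarith
  have h1 : H x ≤ H b := hanti ⟨le_rfl, hx⟩ ⟨hx, le_rfl⟩ hx
  have h2 : K b = 0 := by
    rw [hK]
    simp
  have h3 : H b = ‖g b‖ ^ 2 := by
    show ‖g b‖ ^ 2 * Real.exp (-(2 * K b)) = _
    rw [h2]
    simp
  have h4 : ‖g x‖ ^ 2 ≤ (‖g b‖ * Real.exp (K x)) ^ 2 := by
    have h5 : ‖g x‖ ^ 2 * Real.exp (-(2 * K x)) ≤ ‖g b‖ ^ 2 := h3 ▸ h1
    have h6 : Real.exp (K x) ^ 2 * Real.exp (-(2 * K x)) = 1 := by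
      rw [← Real.exp_nat_mul, ← Real.exp_add]
      simp
    have h7 := Real.exp_pos (-(2 * K x))
    rw [mul_pow]
    by_contra hc
    push Not at hc
    have h8 : ‖g b‖ ^ 2 * Real.exp (K x) ^ 2 * Real.exp (-(2 * K x)) <
        ‖g x‖ ^ 2 * Real.exp (-(2 * K x)) := mul_lt_mul_of_pos_right hc h7
    rw [mul_assoc, h6, mul_one] at h8
    linarith
  exact (pow_le_pow_iff_left₀ (norm_nonneg _) (by positivity) two_ne_zero).1 h4

theorem thmI (o : Omin L) {u : ℂ → ℝ} (hu : DF L (fun v : Fin 2 → ℝ => u ⟨v 0, v 1⟩))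
    {r : ℝ → ℝ} {a : ℝ} (ha : 0 < a) (hr0 : ∀ x, a ≤ x → 0 < r x)
    (hri : ∀ x, a ≤ x → IntervalIntegrable (fun t => 1 / min t (r t)) volume a x)
    (hh : ∀ x, a ≤ x → HarmonicOnNhd u (ball ((x : ℝ) : ℂ) (r x))) :
    ∃ C : ℝ, ∀ᶠ x in atTop,
      |u ((x : ℝ) : ℂ)| ≤ Real.exp (C * ∫ t in a..x, 1 / min t (r t)) := by
  set F := grad u with hFdef
  have hFd := grad_def o hu
  have hdF : ∀ x, a ≤ x → DifferentiableOn ℂ F (ball ((x : ℝ) : ℂ) (r x)) := fun x hx z hz =>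
    (grad_diff (hh x hx z hz)).differentiableWithinAt
  have hle : ∀ x, a ≤ x → min x (r x) ≤ rax F x := fun x hx => le_rax (hdF x hx)
  have hm0 : ∀ x, a ≤ x → 0 < min x (r x) := fun x hx => lt_min (ha.trans_le hx) (hr0 x hx)
  obtain ⟨C, hC⟩ := partA_axis o hFd (r := rax F) (rax_def o hFd) (by
    filter_upwards [eventually_ge_atTop a] with x h1
    exact ⟨(hm0 x h1).trans_le (hle x h1), rax_le F x, rax_diff F x⟩)
  obtain ⟨b, hb⟩ := eventually_atTop.1 ((hC.and (eventually_ge_atTop a)).and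
    (eventually_ge_atTop 1))
  have hb1 : 1 ≤ b := (hb b le_rfl).2
  have hba : a ≤ b := (hb b le_rfl).1.2
  have hhar : ∀ x : ℝ, b ≤ x → HarmonicAt u ((x : ℝ) : ℂ) := fun x hx =>
    hh x (hba.trans hx) _ (mem_ball_self (hr0 x (hba.trans hx)))
  have hR0 : ∀ x, b ≤ x → 0 < rax F x := fun x hx =>
    (hm0 x (hba.trans hx)).trans_le (hle x (hba.trans hx))
  -- the coefficient, made continuous everywhere
  set k : ℝ → ℝ := fun x => |C| / rax F (max b x) with hkdef
  have hk : Continuous k := by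
    refine continuous_const.div ((rax_cont F).comp (continuous_const.max continuous_id)) ?_
    intro x
    exact (hR0 _ (le_max_left _ _)).ne'
  have hkx : ∀ x, b ≤ x → k x = |C| / rax F x := by
    intro x hx
    rw [hkdef]
    simp only
    rw [max_eq_right hx]
  set m : ℝ → ℝ := fun t => 1 / min t (r t) with hm
  have hmp : ∀ x, a ≤ x → 0 ≤ m x := fun x hx => one_div_nonneg.2 (hm0 x hx).le
  set I : ℝ → ℝ := fun x => ∫ t in a..x, m t with hI
  have hIadd : ∀ x y, a ≤ x → x ≤ y → I y = I x + ∫ t in x..y, m t := by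
    intro x y hx hxy
    exact (intervalIntegral.integral_add_adjacent_intervals (hri x hx)
      ((hri x hx).symm.trans (hri y (hx.trans hxy)))).symm
  have hnn : ∀ x y, a ≤ x → x ≤ y → 0 ≤ ∫ t in x..y, m t := fun x y hx hxy =>
    intervalIntegral.integral_nonneg hxy fun t ht => hmp t (hx.trans ht.1)
  have hImono : ∀ x y, a ≤ x → x ≤ y → I x ≤ I y := by
    intro x y hx hxy
    rw [hIadd x y hx hxy]
    linarith [hnn x y hx hxy]
  have hI0 : ∀ x, a ≤ x → 0 ≤ I x := fun x hx => hnn a x le_rfl hx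
  -- the differential inequality
  have hder : ∀ x : ℝ, b ≤ x → ‖deriv F ((x : ℝ) : ℂ)‖ ≤ k x * ‖F ((x : ℝ) : ℂ)‖ := by
    intro x hx
    have h1 := (hb x hx).1.1
    have h2 := hR0 x hx
    rw [hkx x hx, div_mul_eq_mul_div, le_div_iff₀ h2]
    calc ‖deriv F ((x : ℝ) : ℂ)‖ * rax F x = rax F x * ‖deriv F ((x : ℝ) : ℂ)‖ := mul_comm _ _
      _ ≤ C * ‖F ((x : ℝ) : ℂ)‖ := h1
      _ ≤ |C| * ‖F ((x : ℝ) : ℂ)‖ := mul_le_mul_of_nonneg_right (le_abs_self C) (norm_nonneg _)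
  have hF : ∀ x : ℝ, b ≤ x → HasDerivAt (fun s : ℝ => F ((s : ℝ) : ℂ))
      (deriv F ((x : ℝ) : ℂ)) x := fun x hx =>
    (grad_diff (hhar x hx)).hasDerivAt.comp_ofReal
  have hgr0 := gron hk hF hder
  set A := ‖F ((b : ℝ) : ℂ)‖ with hA
  have hA0 : 0 ≤ A := norm_nonneg _
  have hkI : ∀ x, b ≤ x → ∫ t in b..x, k t ≤ |C| * I x := by
    intro x hx
    have h1 : ∫ t in b..x, k t ≤ ∫ t in b..x, |C| * m t := by
      apply intervalIntegral.integral_mono_on hx (hk.intervalIntegrable _ _)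
      · exact (((hri b hba).symm.trans (hri x (hba.trans hx)))).const_mul _
      · intro t ht
        rw [hkx t ht.1, div_eq_mul_one_div]
        refine mul_le_mul_of_nonneg_left ?_ (abs_nonneg C)
        exact one_div_le_one_div_of_le (hm0 t (hba.trans ht.1)) (hle t (hba.trans ht.1))
    rw [intervalIntegral.integral_const_mul] at h1
    refine h1.trans (mul_le_mul_of_nonneg_left ?_ (abs_nonneg C))
    rw [hIadd b x hba hx]
    linarith [hI0 b hba]
  have hgr : ∀ X : ℝ, b ≤ X → ∀ x ∈ Icc b X,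
      ‖F ((x : ℝ) : ℂ)‖ ≤ A * Real.exp (|C| * I X) := by
    intro X hX x hx
    refine (hgr0 x hx.1).trans ?_
    refine mul_le_mul_of_nonneg_left (Real.exp_le_exp.2 ?_) hA0
    refine (hkI x hx.1).trans (mul_le_mul_of_nonneg_left ?_ (abs_nonneg C))
    exact hImono x X (hba.trans hx.1) hx.2
  have hval : ∀ X : ℝ, b ≤ X → |u ((X : ℝ) : ℂ)| ≤
      |u ((b : ℝ) : ℂ)| + A * Real.exp (|C| * I X) * X := by
    intro X hX
    have h1 := Convex.norm_image_sub_le_of_norm_hasDerivWithin_le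
      (f := fun s : ℝ => u ((s : ℝ) : ℂ)) (f' := fun s : ℝ => (F ((s : ℝ) : ℂ)).re)
      (s := Icc b X) (C := A * Real.exp (|C| * I X))
      (fun s hs => (grad_axis (hhar s hs.1)).hasDerivWithinAt)
      (fun s hs => (Complex.abs_re_le_norm _).trans (hgr X hX s hs)) (convex_Icc b X)
      ⟨le_rfl, hX⟩ ⟨hX, le_rfl⟩
    rw [Real.norm_eq_abs, Real.norm_eq_abs, abs_of_nonneg (by linarith : (0 : ℝ) ≤ X - b)] at h1
    have h2 : |u ((X : ℝ) : ℂ)| ≤ |u ((b : ℝ) : ℂ)| + |u ((X : ℝ) : ℂ) - u ((b : ℝ) : ℂ)| := by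
      have h3 := abs_add_le (u ((b : ℝ) : ℂ)) (u ((X : ℝ) : ℂ) - u ((b : ℝ) : ℂ))
      rwa [add_sub_cancel] at h3
    have h3 : A * Real.exp (|C| * I X) * (X - b) ≤ A * Real.exp (|C| * I X) * X :=
      mul_le_mul_of_nonneg_left (by linarith) (by positivity)
    linarith
  -- `log (X / a) ≤ I X`
  have hlog : ∀ X, a ≤ X → Real.log (X / a) ≤ I X := by
    intro X hX
    rw [← integral_one_div_of_pos ha (ha.trans_le hX)]
    apply intervalIntegral.integral_mono_on hX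
    · apply ContinuousOn.intervalIntegrable_of_Icc hX
      exact continuousOn_const.div continuousOn_id fun t ht => (ha.trans_le ht.1).ne'
    · exact hri X hX
    · intro t ht
      exact one_div_le_one_div_of_le (hm0 t ht.1) (min_le_left _ _)
  refine ⟨|C| + 4, ?_⟩
  filter_upwards [eventually_ge_atTop b, eventually_ge_atTop (|u ((b : ℝ) : ℂ)| + A),
    eventually_ge_atTop (a * Real.exp (3 * Real.log a))] with X hX hX2 hX3
  have hX1 : 1 ≤ X := hb1.trans hX
  have hXp : 0 < X := one_pos.trans_le hX1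
  have haX : a ≤ X := hba.trans hX
  have hCX : 0 ≤ |C| * I X := mul_nonneg (abs_nonneg C) (hI0 X haX)
  have hE1 : 1 ≤ Real.exp (|C| * I X) := Real.one_le_exp hCX
  have h1 : |u ((b : ℝ) : ℂ)| + A * Real.exp (|C| * I X) * X ≤
      (|u ((b : ℝ) : ℂ)| + A) * X * Real.exp (|C| * I X) := by
    have e1 : |u ((b : ℝ) : ℂ)| ≤ |u ((b : ℝ) : ℂ)| * X * Real.exp (|C| * I X) := by
      rw [mul_assoc]
      refine le_mul_of_one_le_right (abs_nonneg _) ?_
      exact one_le_mul_of_one_le_of_one_le hX1 hE1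
    nlinarith
  have h2 : (|u ((b : ℝ) : ℂ)| + A) * X ≤ X ^ 3 := by
    have e1 : (|u ((b : ℝ) : ℂ)| + A) * X ≤ X * X := mul_le_mul_of_nonneg_right hX2 hXp.le
    nlinarith [mul_pos hXp hXp]
  have h3 : X ^ 3 ≤ Real.exp (4 * I X) := by
    have e1 : Real.exp (3 * Real.log X) = X ^ 3 := by
      rw [show (3 : ℝ) * Real.log X = ((3 : ℕ) : ℝ) * Real.log X by norm_num, Real.exp_nat_mul,
        Real.exp_log hXp]
    rw [← e1]
    apply Real.exp_le_exp.2
    have e2 := hlog X haX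
    have e3 : 3 * Real.log a ≤ Real.log (X / a) := by
      rw [Real.le_log_iff_exp_le (div_pos hXp ha), le_div_iff₀ ha, mul_comm]
      exact hX3
    rw [Real.log_div hXp.ne' ha.ne'] at e2 e3
    linarith
  refine (hval X hX).trans (h1.trans ?_)
  have h4 : (|u ((b : ℝ) : ℂ)| + A) * X * Real.exp (|C| * I X) ≤
      Real.exp (4 * I X) * Real.exp (|C| * I X) :=
    mul_le_mul_of_nonneg_right (h2.trans h3) (Real.exp_pos _).le
  refine h4.trans (le_of_eq ?_)
  rw [← Real.exp_add]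
  congr 1
  ring

end Pool.Agent.Work.MP_973fa8.h17
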