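import Mathlib

/-! # MP_973fa8: comparison with a moving bump for linear parabolic equations (helper17) -/

set_option autoImplicit false

namespace Pool.Agent.Work.MP_973fa8.h17

open Set Filter Topology

/-- second derivative at a local minimum -/
theorem snd_deriv {g g1 : ℝ → ℝ} {y c : ℝ} (h : IsLocalMin g y)
    (h1 : ∀ᶠ z in 𝓝 y, HasDerivAt g (g1 z) z) (h2 : HasDerivAt g1 c y) : 0 ≤ c := by
  by_contra hc
  rw [not_le] at hc
  have e1 : deriv g =ᶠ[𝓝 y] g1 := h1.mono fun z hz => hz.deriv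
  have e2 : deriv (deriv g) y = c := by
    rw [e1.deriv_eq]
    exact h2.deriv
  have e3 : deriv g y = 0 := h.deriv_eq_zero
  have h3 : IsLocalMax g y := isLocalMax_of_deriv_deriv_neg (by rw [e2]; exact hc) e3
    h1.self_of_nhds.continuousAt
  have h4 : ∀ᶠ z in 𝓝 y, g z = g y := by
    filter_upwards [h, h3] with z hz1 hz2
    exact le_antisymm hz2 hz1
  have h5 : ∀ᶠ z in 𝓝 y, g1 z = 0 := by
    filter_upwards [eventually_eventually_nhds.2 h4, h1] with z hz1 hz2
    exact hz2.unique ((hasDerivAt_const z (g y)).congr_of_eventuallyEq hz1)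
  have h6 : HasDerivAt g1 0 y := (hasDerivAt_const y (0 : ℝ)).congr_of_eventuallyEq h5
  have h7 := h2.unique h6
  linarith

/-- derivative at a minimum from the left -/
theorem fst_deriv {g : ℝ → ℝ} {t c : ℝ} (h : ∀ᶠ s in 𝓝[<] t, g t ≤ g s)
    (h1 : HasDerivAt g c t) : c ≤ 0 := by
  have h2 : Tendsto (slope g t) (𝓝[<] t) (𝓝 c) :=
    (hasDerivAt_iff_tendsto_slope.1 h1).mono_left (nhdsWithin_mono _ fun s hs => ne_of_lt hs)
  refine le_of_tendsto h2 ?_
  filter_upwards [h, self_mem_nhdsWithin] with s hs hst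
  rw [slope_def_field]
  exact div_nonpos_of_nonneg_of_nonpos (sub_nonneg.2 hs) (sub_nonpos.2 (le_of_lt hst))

/-- `u` solves `u_t = A u_xx + B u_x + C u` for `x > a`, `α < t < β`, with coefficients bounded by
`K x`; `ut`, `ux`, `uxx` are the derivatives. -/
structure Par (u ut ux uxx A B C : ℝ → ℝ → ℝ) (a α β : ℝ) (K : ℝ → ℝ) : Prop where
  cont : ContinuousOn (fun p : ℝ × ℝ => u p.1 p.2) {p | a < p.1 ∧ α < p.2 ∧ p.2 < β}
  dt : ∀ x t, a < x → α < t → t < β → HasDerivAt (fun s => u x s) (ut x t) t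
  dx : ∀ x t, a < x → α < t → t < β → HasDerivAt (fun y => u y t) (ux x t) x
  dxx : ∀ x t, a < x → α < t → t < β → HasDerivAt (fun y => ux y t) (uxx x t) x
  eq : ∀ x t, a < x → α < t → t < β →
    ut x t = A x t * uxx x t + B x t * ux x t + C x t * u x t
  bA : ∀ x t, a < x → α < t → t < β → (K x)⁻¹ ≤ A x t ∧ A x t ≤ K x
  bB : ∀ x t, a < x → α < t → t < β → |B x t| ≤ K x
  bC : ∀ x t, a < x → α < t → t < β → |C x t| ≤ K x

theorem compare {u ut ux uxx A B C : ℝ → ℝ → ℝ} {a α β : ℝ} {K : ℝ → ℝ}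
    (h : Par u ut ux uxx A B C a α β K) (hK : Monotone K) (hK1 : ∀ x, 1 ≤ K x)
    {a1 t0 t1 x m : ℝ} (ha1 : a ≤ a1) (ht0 : α < t0) (ht01 : t0 < t1) (ht1 : t1 < β)
    (hpos : ∀ y t, a1 < y → t0 ≤ t → t ≤ t1 → 0 < u y t) (hx : a1 + 2 ≤ x) (hm : 0 ≤ m)
    (hmin : ∀ y, |y - x| ≤ 1 → m ≤ u y t0) (k σ l : ℝ) (hk : k = K (x + 1))
    (hσ : σ = (x - (a1 + 2)) / (t1 - t0)) (hl : l = 2 * k + 1 + k * (σ + 4 * k) ^ 2 / 2) :
    m * Real.exp (-(l * (t1 - t0))) ≤ u (a1 + 2) t1 := by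
  have hT : 0 < t1 - t0 := by linarith
  have hk1 : 1 ≤ k := by
    rw [hk]
    exact hK1 _
  have hk0 : 0 < k := by linarith
  have hσ0 : 0 ≤ σ := by
    rw [hσ]
    exact div_nonneg (by linarith) hT.le
  have hσT : σ * (t1 - t0) = x - (a1 + 2) := by
    rw [hσ]
    exact div_mul_cancel₀ _ hT.ne'
  obtain ⟨R, hR⟩ : ∃ R : Set (ℝ × ℝ), R = {p : ℝ × ℝ | t0 ≤ p.2 ∧ p.2 ≤ t1 ∧
      |p.1 - x + σ * (p.2 - t0)| ≤ 1} := ⟨_, rfl⟩
  obtain ⟨φ, hφ⟩ : ∃ φ : ℝ × ℝ → ℝ, φ = fun p => Real.exp (-(k + 1) * (p.2 - t0)) * u p.1 p.2 -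
      m * Real.exp (-l * (p.2 - t0)) * (1 - (p.1 - x + σ * (p.2 - t0)) ^ 2) ^ 2 := ⟨_, rfl⟩
  have hin : ∀ y t, t0 ≤ t → t ≤ t1 → |y - x + σ * (t - t0)| ≤ 1 → a1 + 1 ≤ y ∧ y ≤ x + 1 := by
    intro y t h1 h2 h3
    rw [abs_le] at h3
    have h4 : σ * (t - t0) ≤ σ * (t1 - t0) := mul_le_mul_of_nonneg_left (by linarith) hσ0
    have h5 : 0 ≤ σ * (t - t0) := mul_nonneg hσ0 (by linarith)
    constructor
    · linarith
    · linarith
  have hclosed : IsClosed R := by
    rw [hR]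
    have c1 : IsClosed {p : ℝ × ℝ | t0 ≤ p.2} := isClosed_le continuous_const continuous_snd
    have c2 : IsClosed {p : ℝ × ℝ | p.2 ≤ t1} := isClosed_le continuous_snd continuous_const
    have c3 : IsClosed {p : ℝ × ℝ | |p.1 - x + σ * (p.2 - t0)| ≤ 1} :=
      isClosed_le (by fun_prop) continuous_const
    exact c1.inter (c2.inter c3)
  have hcomp : IsCompact R := by
    refine (isCompact_Icc (a := ((a1 + 1, t0) : ℝ × ℝ)) (b := ((x + 1, t1) : ℝ × ℝ))).of_isClosed_subset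
      hclosed ?_
    rw [hR]
    rintro ⟨y, t⟩ ⟨h1, h2, h3⟩
    obtain ⟨h4, h5⟩ := hin y t h1 h2 h3
    exact ⟨⟨h4, h1⟩, ⟨h5, h2⟩⟩
  have hne : R.Nonempty := ⟨(x, t0), by
    rw [hR]
    refine ⟨le_rfl, ht01.le, ?_⟩
    simp⟩
  have hcont : ContinuousOn φ R := by
    rw [hφ]
    have h1 : ContinuousOn (fun p : ℝ × ℝ => u p.1 p.2) R := by
      refine h.cont.mono ?_
      rw [hR]
      rintro ⟨y, t⟩ ⟨h1, h2, h3⟩
      obtain ⟨h4, h5⟩ := hin y t h1 h2 h3
      exact ⟨by show a < y; linarith, by show α < t; exact lt_of_lt_of_le ht0 h1,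
        by show t < β; exact lt_of_le_of_lt h2 ht1⟩
    refine ContinuousOn.sub (ContinuousOn.mul ?_ h1) ?_
    · exact Continuous.continuousOn (by fun_prop)
    · exact Continuous.continuousOn (by fun_prop)
  obtain ⟨⟨y, t⟩, hpR, hpmin⟩ := hcomp.exists_isMinOn hne hcont
  have hmem : ∀ q ∈ R, φ (y, t) ≤ φ q := fun q hq => hpmin hq
  have hge : 0 ≤ φ (y, t) := by
    by_contra hneg
    rw [not_le] at hneg
    have hpR' := hpR
    rw [hR] at hpR'
    obtain ⟨h1, h2, h3⟩ := hpR'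
    simp only at h1 h2 h3
    obtain ⟨h4, h5⟩ := hin y t h1 h2 h3
    have hay : a < y := by linarith
    have htβ : t < β := lt_of_le_of_lt h2 ht1
    have hαt : α < t := lt_of_lt_of_le ht0 h1
    have hupos : 0 < u y t := hpos y t (by linarith) h1 h2
    have hφyt : φ (y, t) = Real.exp (-(k + 1) * (t - t0)) * u y t -
        m * Real.exp (-l * (t - t0)) * (1 - (y - x + σ * (t - t0)) ^ 2) ^ 2 := by
      rw [hφ]
    have hne0 : t ≠ t0 := by
      intro he
      rw [hφyt, he] at hneg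
      rw [he] at h3
      simp only [sub_self, mul_zero, Real.exp_zero, one_mul, mul_one, add_zero] at hneg h3
      have h6 := hmin y h3
      have h7 : (1 - (y - x) ^ 2) ^ 2 ≤ 1 := by
        have h8 : (y - x) ^ 2 ≤ 1 := (sq_le_one_iff_abs_le_one _).2 h3
        exact pow_le_one₀ (by linarith) (by linarith [sq_nonneg (y - x)])
      have h9 := mul_le_mul_of_nonneg_left h7 hm
      linarith
    have ht0t : t0 < t := lt_of_le_of_ne h1 (Ne.symm hne0)
    have hη1 : |y - x + σ * (t - t0)| < 1 := by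
      refine lt_of_le_of_ne h3 ?_
      intro he
      have h6 : (y - x + σ * (t - t0)) ^ 2 = 1 := by
        rw [← sq_abs, he]
        norm_num
      rw [hφyt, h6] at hneg
      have h7 : 0 < Real.exp (-(k + 1) * (t - t0)) * u y t := mul_pos (Real.exp_pos _) hupos
      linarith
    obtain ⟨η, hη⟩ : ∃ η : ℝ, η = y - x + σ * (t - t0) := ⟨_, rfl⟩
    obtain ⟨E1, hE1⟩ : ∃ E1 : ℝ, E1 = Real.exp (-(k + 1) * (t - t0)) := ⟨_, rfl⟩
    obtain ⟨E2, hE2⟩ : ∃ E2 : ℝ, E2 = m * Real.exp (-l * (t - t0)) := ⟨_, rfl⟩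
    have hE10 : 0 < E1 := by
      rw [hE1]
      exact Real.exp_pos _
    have hE20 : 0 ≤ E2 := by
      rw [hE2]
      exact mul_nonneg hm (Real.exp_pos _).le
    -- space direction
    have hgy : ∀ z, a < z → HasDerivAt (fun y' => φ (y', t))
        (E1 * ux z t - E2 * (2 * (1 - (z - x + σ * (t - t0)) ^ 2) *
          (-(2 * (z - x + σ * (t - t0)))))) z := by
      intro z hz
      rw [hφ]
      have d1 := (h.dx z t hz hαt htβ).const_mul E1
      have d2 : HasDerivAt (fun y' : ℝ => y' - x + σ * (t - t0)) 1 z :=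
        ((hasDerivAt_id z).sub_const x).add_const _
      have d3 := ((((d2.pow 2).const_sub 1).pow 2).const_mul E2)
      have d4 := d1.sub d3
      rw [hE1, hE2] at d4 ⊢
      refine d4.congr_deriv ?_
      simp only [Nat.cast_ofNat, Pi.pow_apply]
      ring
    have hgyy : HasDerivAt (fun z => E1 * ux z t - E2 * (2 * (1 - (z - x + σ * (t - t0)) ^ 2) *
          (-(2 * (z - x + σ * (t - t0))))))
        (E1 * uxx y t - E2 * (8 * η ^ 2 - 4 * (1 - η ^ 2))) y := by
      have d1 := (h.dxx y t hay hαt htβ).const_mul E1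
      have d2 : HasDerivAt (fun y' : ℝ => y' - x + σ * (t - t0)) 1 y :=
        ((hasDerivAt_id y).sub_const x).add_const _
      have d3 := ((((d2.pow 2).const_sub 1).const_mul 2).mul (d2.const_mul 2).neg).const_mul E2
      have d4 := d1.sub d3
      refine d4.congr_deriv ?_
      simp only [Nat.cast_ofNat, Pi.pow_apply, Pi.neg_apply]
      rw [hη]
      ring
    have hlocy : IsLocalMin (fun y' => φ (y', t)) y := by
      have h6 : ∀ᶠ y' in 𝓝 y, |y' - x + σ * (t - t0)| < 1 := by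
        have h7 : ContinuousAt (fun y' : ℝ => |y' - x + σ * (t - t0)|) y := by fun_prop
        exact h7.eventually_lt continuousAt_const hη1
      filter_upwards [h6] with y' hy'
      exact hmem (y', t) (by rw [hR]; exact ⟨h1, h2, hy'.le⟩)
    have hg1 : E1 * ux y t - E2 * (2 * (1 - (y - x + σ * (t - t0)) ^ 2) *
          (-(2 * (y - x + σ * (t - t0))))) = 0 := hlocy.hasDerivAt_eq_zero (hgy y hay)
    have hg2 : 0 ≤ E1 * uxx y t - E2 * (8 * η ^ 2 - 4 * (1 - η ^ 2)) :=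
      snd_deriv hlocy ((eventually_gt_nhds hay).mono fun z hz => hgy z hz) hgyy
    -- time direction
    have hgt : HasDerivAt (fun s => φ (y, s))
        (-(k + 1) * E1 * u y t + E1 * ut y t - (-l * E2 * (1 - η ^ 2) ^ 2 +
          E2 * (2 * (1 - η ^ 2) * (-(2 * η * σ))))) t := by
      rw [hφ]
      have d0 : HasDerivAt (fun s : ℝ => s - t0) 1 t := (hasDerivAt_id t).sub_const t0
      have d1 := ((d0.const_mul (-(k + 1))).exp).mul (h.dt y t hay hαt htβ)
      have d2 : HasDerivAt (fun s : ℝ => y - x + σ * (s - t0)) (σ * 1) t :=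
        (d0.const_mul σ).const_add (y - x)
      have d3 := ((d0.const_mul (-l)).exp.const_mul m).mul (((d2.pow 2).const_sub 1).pow 2)
      have d4 := d1.sub d3
      refine d4.congr_deriv ?_
      simp only [Nat.cast_ofNat, Pi.pow_apply]
      rw [hE1, hE2, hη]
      ring
    have hgt0 := fst_deriv (g := fun s => φ (y, s)) (t := t) (by
      have h6 : ∀ᶠ s in 𝓝 t, |y - x + σ * (s - t0)| < 1 := by
        have h7 : ContinuousAt (fun s : ℝ => |y - x + σ * (s - t0)|) t := by fun_prop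
        exact h7.eventually_lt continuousAt_const hη1
      filter_upwards [nhdsWithin_le_nhds h6, nhdsWithin_le_nhds (eventually_gt_nhds ht0t),
        self_mem_nhdsWithin] with s hs1 hs2 hs3
      exact hmem (y, s) (by rw [hR]; exact ⟨le_of_lt hs2, (le_of_lt hs3).trans h2, hs1.le⟩)) hgt
    rw [← hη] at hg1 h3 hη1
    rw [hφyt, ← hE1, ← hE2, ← hη] at hneg
    have heq := h.eq y t hay hαt htβ
    obtain ⟨hA1, hA2⟩ := h.bA y t hay hαt htβ
    have hB := h.bB y t hay hαt htβ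
    have hC := h.bC y t hay hαt htβ
    have hKk : K y ≤ k := by
      rw [hk]
      exact hK h5
    have hKy : 1 ≤ K y := hK1 y
    have hA3 : k⁻¹ ≤ A y t := (inv_anti₀ (by linarith) hKk).trans hA1
    have hA4 : A y t ≤ k := hA2.trans hKk
    have hB2 := abs_le.1 (hB.trans hKk)
    have hC2 := abs_le.1 (hC.trans hKk)
    obtain ⟨w, hw⟩ : ∃ w : ℝ, w = 1 - η ^ 2 := ⟨_, rfl⟩
    have hη2 : η ^ 2 < 1 := by
      exact (sq_lt_one_iff_abs_lt_one _).2 hη1
    have hw0 : 0 < w := by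
      rw [hw]
      linarith
    have hw1 : w ≤ 1 := by
      rw [hw]
      linarith [sq_nonneg η]
    have hηsq : η ^ 2 = 1 - w := by
      rw [hw]
      ring
    rw [← hw] at hg1 hg2 hneg hgt0
    rw [hηsq] at hg2
    -- bracket
    have hbr : 0 ≤ (C y t - (k + 1) + l) * w ^ 2 + A y t * (8 - 12 * w) +
        (B y t - σ) * (-(4 * η * w)) := by
      have hη3 := abs_le.1 h3
      have b1 : (k + k * (σ + 4 * k) ^ 2 / 2 - k) * w ^ 2 ≤ (C y t - (k + 1) + l) * w ^ 2 := by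
        apply mul_le_mul_of_nonneg_right _ (sq_nonneg w)
        rw [hl]
        linarith [hC2.1]
      have b2 : 8 * k⁻¹ - 12 * k * w ≤ A y t * (8 - 12 * w) := by
        have b3 : A y t * w ≤ k * w := mul_le_mul_of_nonneg_right hA4 hw0.le
        linarith
      have b4 : -(4 * (k + σ) * w) ≤ (B y t - σ) * (-(4 * η * w)) := by
        have b5 : |(B y t - σ) * η| ≤ (k + σ) * 1 := by
          rw [abs_mul]
          apply mul_le_mul _ h3 (abs_nonneg _) (by linarith)
          rw [abs_le]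
          constructor
          · linarith [hB2.1]
          · linarith [hB2.2]
        have b6 := (abs_le.1 b5).2
        have b7 : (B y t - σ) * η * w ≤ (k + σ) * 1 * w := mul_le_mul_of_nonneg_right b6 hw0.le
        linarith
      have b8 : 0 ≤ k * (σ + 4 * k) ^ 2 / 2 * w ^ 2 - 4 * (σ + 4 * k) * w + 8 * k⁻¹ := by
        have b9 : k * (σ + 4 * k) ^ 2 / 2 * w ^ 2 - 4 * (σ + 4 * k) * w + 8 * k⁻¹ =
            k / 2 * ((σ + 4 * k) * w - 4 * k⁻¹) ^ 2 := by
          field_simp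
          ring
        rw [b9]
        positivity
      linarith
    have hU : E1 * u y t < E2 * w ^ 2 := by linarith
    have hd : (C y t - (k + 1)) * (E1 * u y t) > (C y t - (k + 1)) * (E2 * w ^ 2) :=
      mul_lt_mul_of_neg_left hU (by linarith [hC2.2])
    have hA0 : 0 < A y t := lt_of_lt_of_le (inv_pos.2 hk0) hA3
    have hAU : A y t * (E2 * (8 * (1 - w) - 4 * w)) ≤ A y t * (E1 * uxx y t) :=
      mul_le_mul_of_nonneg_left (by linarith) hA0.le
    have hBU : B y t * (E1 * ux y t) = B y t * (E2 * (2 * w * (-(2 * η)))) := by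
      have h6 : E1 * ux y t = E2 * (2 * w * (-(2 * η))) := by linarith
      rw [h6]
    have hbr2 := mul_nonneg hE20 hbr
    have hfin : E1 * ut y t = A y t * (E1 * uxx y t) + B y t * (E1 * ux y t) + C y t * (E1 * u y t) := by
      rw [heq]
      ring
    linarith
  have hlast := hmem (a1 + 2, t1) (by
    rw [hR]
    refine ⟨ht01.le, le_rfl, ?_⟩
    show |a1 + 2 - x + σ * (t1 - t0)| ≤ 1
    rw [hσT]
    simp)
  have hval : φ (a1 + 2, t1) = Real.exp (-(k + 1) * (t1 - t0)) * u (a1 + 2) t1 -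
      m * Real.exp (-l * (t1 - t0)) := by
    rw [hφ]
    show Real.exp (-(k + 1) * (t1 - t0)) * u (a1 + 2) t1 -
      m * Real.exp (-l * (t1 - t0)) * (1 - (a1 + 2 - x + σ * (t1 - t0)) ^ 2) ^ 2 = _
    rw [hσT]
    ring
  rw [hval] at hlast
  have h6 : Real.exp (-(k + 1) * (t1 - t0)) ≤ 1 := Real.exp_le_one_iff.2 (by
    have h9 := mul_pos (show (0 : ℝ) < k + 1 by linarith) hT
    linarith)
  have h7 : 0 < u (a1 + 2) t1 := hpos _ _ (by linarith) ht01.le le_rfl
  have h8 : -l * (t1 - t0) = -(l * (t1 - t0)) := by ring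
  rw [h8] at hlast
  have h9 := mul_le_mul_of_nonneg_right h6 h7.le
  linarith

end Pool.Agent.Work.MP_973fa8.h17
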