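import Pool.Agent.Work.MP_973fa8_h17.PA
import Pool.Agent.Work.MP_973fa8_helper46.Def

/-! # MP_973fa8: definable solutions of linear parabolic equations (helper17) -/

set_option autoImplicit false

namespace Pool.Agent.Work.MP_973fa8.h17

open Set Filter Topology Pool.Agent.Work.MP_973fa8.helper46

variable {L : FirstOrder.Language.{0, 0}} [L.Structure ℝ]

/-- the equation for `-u` -/
theorem Par.neg {u ut ux uxx A B C : ℝ → ℝ → ℝ} {a α β : ℝ} {K : ℝ → ℝ}
    (h : Par u ut ux uxx A B C a α β K) :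
    Par (fun x t => - u x t) (fun x t => - ut x t) (fun x t => - ux x t) (fun x t => - uxx x t)
      A B C a α β K where
  cont := h.cont.neg
  dt := fun x t h1 h2 h3 => (h.dt x t h1 h2 h3).neg
  dx := fun x t h1 h2 h3 => (h.dx x t h1 h2 h3).neg
  dxx := fun x t h1 h2 h3 => (h.dxx x t h1 h2 h3).neg
  eq := fun x t h1 h2 h3 => by
    rw [h.eq x t h1 h2 h3]
    ring
  bA := h.bA
  bB := h.bB
  bC := h.bC

/-- the bound for a positive solution at a time `t0` -/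
theorem posBound (o : Omin L) {u ut ux uxx A B C : ℝ → ℝ → ℝ} {a α β : ℝ} {K : ℝ → ℝ}
    (hu : DF L (fun v : Fin 2 → ℝ => u (v 0) (v 1)))
    (h : Par u ut ux uxx A B C a α β K) (hK : Monotone K) (hK1 : ∀ x, 1 ≤ K x)
    {a1 t0 t1 : ℝ} (ha1 : a ≤ a1) (ht0 : α < t0) (ht01 : t0 < t1) (ht1 : t1 < β)
    (hpos : ∀ y t, a1 < y → t0 ≤ t → t ≤ t1 → 0 < u y t) :
    ∃ c : ℝ, ∀ᶠ x in atTop, u x t0 ≤ Real.exp (c * K (x + 2) ^ 3 * x ^ 2) := by
  have hT : 0 < t1 - t0 := by linarith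
  have hut : DF L (fun v : Fin 1 → ℝ => u (v 0) t0) := DF.sub2 hu (DF.var 0) (DF.const t0)
  have hcont : ∀ x, a < x → ContinuousAt (fun y => u y t0) x := fun x hx =>
    (h.dx x t0 hx ht0 (ht01.trans ht1)).continuousAt
  -- the predicate
  have hP : DP L (fun v : Fin 1 → ℝ => ∀ y, v 0 ≤ y → y ≤ v 0 + 2 → u (v 0) t0 ≤ u y t0) := by
    apply DP.all
    have e1 : DF L (fun w : Fin 1 ⊕ Unit → ℝ => w (Sum.inl 0)) := DF.var _
    have e2 : DF L (fun w : Fin 1 ⊕ Unit → ℝ => w (Sum.inr ())) := DF.var _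
    refine (o.dle e1 e2).imp ((o.dle e2 (o.dadd e1 (DF.const 2))).imp (o.dle ?_ ?_))
    · exact DF.sub2 hu e1 (DF.const t0)
    · exact DF.sub2 hu e2 (DF.const t0)
  rcases o.dich (P := fun x => ∀ y, x ≤ y → y ≤ x + 2 → u x t0 ≤ u y t0) hP with h1 | h1
  · -- comparison
    have hu1 : 0 < u (a1 + 2) t1 := hpos _ _ (by linarith) ht01.le le_rfl
    obtain ⟨c0, hc0⟩ : ∃ c0 : ℝ, c0 = (|Real.log (u (a1 + 2) t1)| +
      (t1 - t0) * (3 + ((1 + |a1|) / (t1 - t0) + 4) ^ 2)) := ⟨_, rfl⟩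
    refine ⟨c0, ?_⟩
    filter_upwards [h1, eventually_ge_atTop 1, eventually_ge_atTop (a1 + 2)] with x hx hx1 hxa
    obtain ⟨k, hk⟩ : ∃ k, k = K (x + 1 + 1) := ⟨_, rfl⟩
    obtain ⟨σ, hσ⟩ : ∃ σ, σ = (x + 1 - (a1 + 2)) / (t1 - t0) := ⟨_, rfl⟩
    obtain ⟨l, hl⟩ : ∃ l, l = 2 * k + 1 + k * (σ + 4 * k) ^ 2 / 2 := ⟨_, rfl⟩
    have hm : 0 < u x t0 := hpos _ _ (by linarith) le_rfl ht01.le
    have hcmp := compare h hK hK1 (x := x + 1) (m := u x t0) ha1 ht0 ht01 ht1 hpos (by linarith) hm.le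
      (fun y hy => by
        rw [abs_le] at hy
        exact hx y (by linarith [hy.1]) (by linarith [hy.2])) k σ l hk hσ hl
    have hk1 : 1 ≤ k := by
      rw [hk]
      exact hK1 _
    have hσ0 : 0 ≤ σ := by
      rw [hσ]
      exact div_nonneg (by linarith) hT.le
    obtain ⟨s, hs⟩ : ∃ s : ℝ, s = (1 + |a1|) / (t1 - t0) := ⟨_, rfl⟩
    have hs0 : 0 ≤ s := by
      rw [hs]
      positivity
    have hσs : σ ≤ s * x := by
      rw [hσ, hs, div_mul_eq_mul_div]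
      apply div_le_div_of_nonneg_right _ hT.le
      have h5 : -a1 ≤ |a1| := neg_le_abs a1
      have h6 : |a1| * 1 ≤ |a1| * x := mul_le_mul_of_nonneg_left hx1 (abs_nonneg _)
      linarith
    have hx2 : 1 ≤ x ^ 2 := one_le_pow₀ hx1
    have hk3 : k ≤ k ^ 3 := by
      have := pow_le_pow_right₀ hk1 (show 1 ≤ 3 by norm_num)
      simpa using this
    have hk31 : 1 ≤ k ^ 3 := one_le_pow₀ hk1
    have hsq : (σ + 4 * k) ^ 2 ≤ (s + 4) ^ 2 * (k ^ 2 * x ^ 2) := by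
      have h5 : σ + 4 * k ≤ (s + 4) * (k * x) := by
        have h6 : s * x * 1 ≤ s * x * k := mul_le_mul_of_nonneg_left hk1 (by positivity)
        have h7 : k * 1 ≤ k * x := mul_le_mul_of_nonneg_left hx1 (by linarith)
        nlinarith
      have h6 := pow_le_pow_left₀ (by linarith) h5 2
      calc (σ + 4 * k) ^ 2 ≤ ((s + 4) * (k * x)) ^ 2 := h6
        _ = (s + 4) ^ 2 * (k ^ 2 * x ^ 2) := by ring
    have hl2 : l ≤ (3 + (s + 4) ^ 2) * (k ^ 3 * x ^ 2) := by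
      have h5 : k * (σ + 4 * k) ^ 2 ≤ k * ((s + 4) ^ 2 * (k ^ 2 * x ^ 2)) :=
        mul_le_mul_of_nonneg_left hsq (by linarith)
      have h6 : k ^ 3 * 1 ≤ k ^ 3 * x ^ 2 := mul_le_mul_of_nonneg_left hx2 (by linarith)
      have h7 : 0 ≤ (s + 4) ^ 2 * (k ^ 3 * x ^ 2) := by positivity
      rw [hl]
      nlinarith
    have hlog : Real.log (u x t0) ≤ Real.log (u (a1 + 2) t1) + l * (t1 - t0) := by
      have h5 := Real.log_le_log (by positivity) hcmp
      rw [Real.log_mul hm.ne' (Real.exp_pos _).ne', Real.log_exp] at h5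
      linarith
    rw [← Real.log_le_iff_le_exp hm]
    refine hlog.trans ?_
    have e : x + 1 + 1 = x + 2 := by ring
    rw [e] at hk
    rw [← hk, hc0, ← hs]
    have h5 : Real.log (u (a1 + 2) t1) ≤ |Real.log (u (a1 + 2) t1)| * (k ^ 3 * x ^ 2) := by
      have h6 : 1 ≤ k ^ 3 * x ^ 2 := one_le_mul_of_one_le_of_one_le hk31 hx2
      calc Real.log (u (a1 + 2) t1) ≤ |Real.log (u (a1 + 2) t1)| := le_abs_self _
        _ = |Real.log (u (a1 + 2) t1)| * 1 := (mul_one _).symm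
        _ ≤ _ := mul_le_mul_of_nonneg_left h6 (abs_nonneg _)
    have h6 : l * (t1 - t0) ≤ (3 + (s + 4) ^ 2) * (k ^ 3 * x ^ 2) * (t1 - t0) :=
      mul_le_mul_of_nonneg_right hl2 hT.le
    calc Real.log (u (a1 + 2) t1) + l * (t1 - t0) ≤ |Real.log (u (a1 + 2) t1)| * (k ^ 3 * x ^ 2) +
          (3 + (s + 4) ^ 2) * (k ^ 3 * x ^ 2) * (t1 - t0) := add_le_add h5 h6
      _ = (|Real.log (u (a1 + 2) t1)| + (t1 - t0) * (3 + (s + 4) ^ 2)) * k ^ 3 * x ^ 2 := by ring
  · -- bounded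
    obtain ⟨X, hX⟩ := eventually_atTop.1 h1
    obtain ⟨X2, hX2⟩ : ∃ X2, X2 = max X (a + 1) := ⟨_, rfl⟩
    have hXX2 : X ≤ X2 := by
      rw [hX2]
      exact le_max_left _ _
    have haX2 : a + 1 ≤ X2 := by
      rw [hX2]
      exact le_max_right _ _
    have hbd : ∀ᶠ x in atTop, u x t0 ≤ u X2 t0 := by
      have hQ : DP L (fun v : Fin 1 → ℝ => u (v 0) t0 ≤ u X2 t0) := o.dle hut (DF.const _)
      rcases o.dich (P := fun x => u x t0 ≤ u X2 t0) hQ with h2 | h2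
      · exact h2
      · exfalso
        obtain ⟨Y, hY⟩ := eventually_atTop.1 h2
        obtain ⟨S, hS⟩ : ∃ S : Set ℝ, S = {x | X2 ≤ x ∧ u x t0 ≤ u X2 t0} := ⟨_, rfl⟩
        have hSne : S.Nonempty := ⟨X2, by
          rw [hS]
          exact ⟨le_rfl, le_rfl⟩⟩
        have hSb : BddAbove S := ⟨Y, by
          rw [hS]
          rintro x ⟨h3, h4⟩
          by_contra hc
          exact hY x (not_le.1 hc).le h4⟩
        have hx1 : X2 ≤ sSup S := le_csSup hSb (by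
          rw [hS]
          exact ⟨le_rfl, le_rfl⟩)
        have hcl : sSup S ∈ closure S := csSup_mem_closure hSne hSb
        have hux : u (sSup S) t0 ≤ u X2 t0 := by
          have hc := hcont (sSup S) (by linarith)
          rw [mem_closure_iff_clusterPt] at hcl
          have h4 : (𝓝[S] (sSup S)).NeBot := mem_closure_iff_nhdsWithin_neBot.1 (csSup_mem_closure hSne hSb)
          refine le_of_tendsto (hc.tendsto.mono_left nhdsWithin_le_nhds : Tendsto (fun y => u y t0) (𝓝[S] (sSup S)) _) ?_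
          filter_upwards [self_mem_nhdsWithin] with y hy
          rw [hS] at hy
          exact hy.2
        refine hX (sSup S) (hXX2.trans hx1) ?_
        intro y hy1 hy2
        rcases eq_or_lt_of_le hy1 with h5 | h5
        · rw [← h5]
        · by_contra hc
          rw [not_le] at hc
          have hyS : y ∈ S := by
            rw [hS]
            exact ⟨hx1.trans hy1, (hc.trans_le hux).le⟩
          exact absurd (le_csSup hSb hyS) (not_le.2 h5)
    refine ⟨|u X2 t0|, ?_⟩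
    filter_upwards [hbd, eventually_ge_atTop 1] with x hx hx1
    have h5 : 1 ≤ K (x + 2) ^ 3 * x ^ 2 :=
      one_le_mul_of_one_le_of_one_le (one_le_pow₀ (hK1 _)) (one_le_pow₀ hx1)
    calc u x t0 ≤ u X2 t0 := hx
      _ ≤ |u X2 t0| := le_abs_self _
      _ = |u X2 t0| * 1 := (mul_one _).symm
      _ ≤ |u X2 t0| * (K (x + 2) ^ 3 * x ^ 2) := mul_le_mul_of_nonneg_left h5 (abs_nonneg _)
      _ = |u X2 t0| * K (x + 2) ^ 3 * x ^ 2 := by ring
      _ ≤ |u X2 t0| * K (x + 2) ^ 3 * x ^ 2 + 1 := by linarith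
      _ ≤ _ := Real.add_one_le_exp _

end Pool.Agent.Work.MP_973fa8.h17
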