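import Pool.Agent.Work.MP_973fa8_h17.PB

/-! # MP_973fa8: definable solutions of linear parabolic equations, all but finitely many times
(helper17) -/

set_option autoImplicit false

namespace Pool.Agent.Work.MP_973fa8.h17

open Set Filter Topology Pool.Agent.Work.MP_973fa8.helper46

variable {L : FirstOrder.Language.{0, 0}} [L.Structure ℝ]

/-- constant sign near the time `t` -/
def SG (u : ℝ → ℝ → ℝ) (t : ℝ) : Prop :=
  ∃ ε X : ℝ, 0 < ε ∧ ((∀ s x, t - ε < s → s < t + ε → X < x → 0 < u x s) ∨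
    (∀ s x, t - ε < s → s < t + ε → X < x → u x s < 0) ∨
    (∀ s x, t - ε < s → s < t + ε → X < x → u x s = 0))

theorem def_SG (o : Omin L) {u : ℝ → ℝ → ℝ} (hu : DF L (fun v : Fin 2 → ℝ => u (v 0) (v 1))) :
    DP L (fun v : Fin 1 → ℝ => SG u (v 0)) := by
  unfold SG
  apply DP.ex
  apply DP.ex
  have eε : DF L (fun w : (Fin 1 ⊕ Unit) ⊕ Unit → ℝ => w (Sum.inl (Sum.inr ()))) := DF.var _
  refine (o.dlt (DF.const 0) eε).and ?_
  have key : ∀ R : ℝ → Prop, (∀ (γ : Type) (F : (γ → ℝ) → ℝ), DF L F → DP L (fun v => R (F v))) →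
      DP L (fun w : (Fin 1 ⊕ Unit) ⊕ Unit → ℝ =>
        ∀ s x, w (Sum.inl (Sum.inl 0)) - w (Sum.inl (Sum.inr ())) < s →
          s < w (Sum.inl (Sum.inl 0)) + w (Sum.inl (Sum.inr ())) → w (Sum.inr ()) < x → R (u x s)) := by
    intro R hR
    apply DP.all
    apply DP.all
    have et : DF L (fun w : (((Fin 1 ⊕ Unit) ⊕ Unit) ⊕ Unit) ⊕ Unit → ℝ =>
      w (Sum.inl (Sum.inl (Sum.inl (Sum.inl 0))))) := DF.var _
    have ee : DF L (fun w : (((Fin 1 ⊕ Unit) ⊕ Unit) ⊕ Unit) ⊕ Unit → ℝ =>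
      w (Sum.inl (Sum.inl (Sum.inl (Sum.inr ()))))) := DF.var _
    have eX : DF L (fun w : (((Fin 1 ⊕ Unit) ⊕ Unit) ⊕ Unit) ⊕ Unit → ℝ =>
      w (Sum.inl (Sum.inl (Sum.inr ())))) := DF.var _
    have es : DF L (fun w : (((Fin 1 ⊕ Unit) ⊕ Unit) ⊕ Unit) ⊕ Unit → ℝ =>
      w (Sum.inl (Sum.inr ()))) := DF.var _
    have ex : DF L (fun w : (((Fin 1 ⊕ Unit) ⊕ Unit) ⊕ Unit) ⊕ Unit → ℝ =>
      w (Sum.inr ())) := DF.var _
    refine (o.dlt (o.dsub et ee) es).imp ((o.dlt es (o.dadd et ee)).imp ((o.dlt eX ex).imp ?_))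
    exact hR _ _ (DF.sub2 hu ex es)
  refine (key (fun y => 0 < y) (fun γ F hF => o.dlt (DF.const 0) hF)).or
    ((key (fun y => y < 0) (fun γ F hF => o.dlt hF (DF.const 0))).or
      (key (fun y => y = 0) (fun γ F hF => hF.eq (DF.const 0))))

/-- at all but finitely many times the sign is constant nearby, for large `x` -/
theorem fin_SG (o : Omin L) {u : ℝ → ℝ → ℝ} (hu : DF L (fun v : Fin 2 → ℝ => u (v 0) (v 1))) :
    {t : ℝ | ¬ SG u t}.Finite := by
  obtain ⟨T, hT⟩ : ∃ T : ℕ → Fin 3 → Set ℝ, T = fun (n : ℕ) (i : Fin 3) => {t : ℝ | ∀ x : ℝ, (n : ℝ) < x →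
    (i = 0 → 0 < u x t) ∧ (i = 1 → u x t < 0) ∧ (i = 2 → u x t = 0)} := ⟨_, rfl⟩
  have hfr : ∀ n i, (frontier (T n i)).Finite := by
    intro n i
    have hd : DP L (fun v : Fin 1 → ℝ => ∀ x, (n : ℝ) < x →
        (i = 0 → 0 < u x (v 0)) ∧ (i = 1 → u x (v 0) < 0) ∧ (i = 2 → u x (v 0) = 0)) := by
      apply DP.all
      have et : DF L (fun w : Fin 1 ⊕ Unit → ℝ => w (Sum.inl 0)) := DF.var _
      have ex : DF L (fun w : Fin 1 ⊕ Unit → ℝ => w (Sum.inr ())) := DF.var _
      have eu := DF.sub2 hu ex et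
      have hc : ∀ Q : Prop, DP L (fun _ : Fin 1 ⊕ Unit → ℝ => Q) := by
        intro Q
        by_cases hQ : Q
        · exact (o.dle (DF.const 0) (DF.const 0)).congr (fun v => by simp [hQ])
        · exact (o.dlt (DF.const 0) (DF.const 0)).congr (fun v => by simp [hQ])
      exact (o.dlt (DF.const _) ex).imp (((hc _).imp (o.dlt (DF.const 0) eu)).and
        (((hc _).imp (o.dlt eu (DF.const 0))).and ((hc _).imp (eu.eq (DF.const 0)))))
    have h1 := o.fin _ hd
    rw [hT]
    exact h1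
  have hSd := o.fin _ (def_SG o hu).not
  have hS2 : {x : ℝ | (fun _ : Fin 1 => x) ∈ {v : Fin 1 → ℝ | ¬ SG u (v 0)}} = {t : ℝ | ¬ SG u t} := rfl
  rw [hS2] at hSd
  -- countable
  have hcount : {t : ℝ | ¬ SG u t}.Countable := by
    have hsub : {t : ℝ | ¬ SG u t} ⊆ ⋃ n : ℕ, ⋃ i : Fin 3, frontier (T n i) := by
      intro t ht
      have hut : DF L (fun v : Fin 1 → ℝ => u (v 0) t) := DF.sub2 hu (DF.var 0) (DF.const t)
      have hex : ∃ (n : ℕ) (i : Fin 3), t ∈ T n i := by
        rw [hT]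
        rcases o.dich (P := fun x => 0 < u x t) (o.dlt (DF.const 0) hut) with h1 | h1
        · obtain ⟨X, hX⟩ := eventually_atTop.1 h1
          obtain ⟨n, hn⟩ := exists_nat_ge X
          exact ⟨n, 0, fun x hx => ⟨fun _ => hX x (hn.trans hx.le), fun h => absurd h (by decide),
            fun h => absurd h (by decide)⟩⟩
        · rcases o.dich (P := fun x => u x t < 0) (o.dlt hut (DF.const 0)) with h2 | h2
          · obtain ⟨X, hX⟩ := eventually_atTop.1 h2
            obtain ⟨n, hn⟩ := exists_nat_ge X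
            exact ⟨n, 1, fun x hx => ⟨fun h => absurd h (by decide), fun _ => hX x (hn.trans hx.le),
              fun h => absurd h (by decide)⟩⟩
          · obtain ⟨X, hX⟩ := eventually_atTop.1 (h1.and h2)
            obtain ⟨n, hn⟩ := exists_nat_ge X
            refine ⟨n, 2, fun x hx => ⟨fun h => absurd h (by decide), fun h => absurd h (by decide),
              fun _ => ?_⟩⟩
            obtain ⟨h3, h4⟩ := hX x (hn.trans hx.le)
            exact le_antisymm (not_lt.1 h3) (not_lt.1 h4)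
      obtain ⟨n, i, hni⟩ := hex
      rw [mem_iUnion]
      refine ⟨n, ?_⟩
      rw [mem_iUnion]
      refine ⟨i, subset_closure hni, fun hint => ht ?_⟩
      rw [mem_interior_iff_mem_nhds, Metric.mem_nhds_iff] at hint
      obtain ⟨ε, hε, hball⟩ := hint
      have hb : ∀ s, t - ε < s → s < t + ε → s ∈ T n i := fun s h1 h2 => hball (by
        rw [Metric.mem_ball, Real.dist_eq, abs_lt]
        constructor <;> linarith)
      rw [hT] at hb
      refine ⟨ε, n, hε, ?_⟩
      fin_cases i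
      · left
        exact fun s x h1 h2 h3 => (hb s h1 h2 x h3).1 rfl
      · right
        left
        exact fun s x h1 h2 h3 => (hb s h1 h2 x h3).2.1 rfl
      · right
        right
        exact fun s x h1 h2 h3 => (hb s h1 h2 x h3).2.2 rfl
    refine Countable.mono hsub ?_
    exact countable_iUnion fun n => countable_iUnion fun i => (hfr n i).countable
  refine hSd.subset ?_
  intro t ht
  refine ⟨subset_closure ht, fun hint => ?_⟩
  have h1 : (interior {t : ℝ | ¬ SG u t}).Countable := hcount.mono interior_subset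
  have h2 : (interior {t : ℝ | ¬ SG u t}) = ∅ := by
    by_contra hne
    have hne' := nonempty_iff_ne_empty.2 hne
    rw [mem_interior_iff_mem_nhds, Metric.mem_nhds_iff] at hint
    obtain ⟨ε, hε, hball⟩ := hint
    have h3 : (Metric.ball t ε).Countable := hcount.mono hball
    rw [Real.ball_eq_Ioo] at h3
    have h4 := Cardinal.mk_Ioo_real (show t - ε < t + ε by linarith)
    have h5 := h3.le_aleph0
    rw [h4] at h5
    exact absurd h5 (not_le.2 Cardinal.aleph0_lt_continuum)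
  rw [h2] at hint
  exact hint

/-- the theorem -/
theorem thmP (o : Omin L) {u ut ux uxx A B C : ℝ → ℝ → ℝ} {a α β : ℝ} {K : ℝ → ℝ}
    (hu : DF L (fun v : Fin 2 → ℝ => u (v 0) (v 1)))
    (h : Par u ut ux uxx A B C a α β K) (hK : Monotone K) (hK1 : ∀ x, 1 ≤ K x) :
    ∃ E : Set ℝ, E.Finite ∧ ∀ t, α < t → t < β → t ∉ E →
      ∃ c : ℝ, ∀ᶠ x in atTop, |u x t| ≤ Real.exp (c * K (x + 2) ^ 3 * x ^ 2) := by
  refine ⟨{t : ℝ | ¬ SG u t}, fin_SG o hu, fun t hα hβ ht => ?_⟩
  have ht' : SG u t := by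
    by_contra hc
    exact ht hc
  obtain ⟨ε, X, hε, hsg⟩ := ht'
  obtain ⟨t1, ht1⟩ : ∃ t1, t1 = min (t + ε / 2) ((t + β) / 2) := ⟨_, rfl⟩
  have h1 : t < t1 := by
    rw [ht1]
    exact lt_min (by linarith) (by linarith)
  have h2 : t1 < β := by
    rw [ht1]
    exact (min_le_right _ _).trans_lt (by linarith)
  have h3 : t1 < t + ε := by
    rw [ht1]
    exact (min_le_left _ _).trans_lt (by linarith)
  rcases hsg with hp | hp | hp
  · obtain ⟨c, hc⟩ := posBound o hu h hK hK1 (a1 := max a X) (le_max_left _ _) hα h1 h2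
      (fun y s hy hs1 hs2 => hp s y (by linarith) (by linarith) ((le_max_right _ _).trans_lt hy))
    refine ⟨c, ?_⟩
    filter_upwards [hc, eventually_gt_atTop X] with x hx hxX
    rw [abs_of_pos (hp t x (by linarith) (by linarith) hxX)]
    exact hx
  · have hu' : DF L (fun v : Fin 2 → ℝ => - u (v 0) (v 1)) := o.dneg hu
    obtain ⟨c, hc⟩ := posBound o hu' h.neg hK hK1 (a1 := max a X) (le_max_left _ _) hα h1 h2
      (fun y s hy hs1 hs2 => neg_pos.2
        (hp s y (by linarith) (by linarith) ((le_max_right _ _).trans_lt hy)))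
    refine ⟨c, ?_⟩
    filter_upwards [hc, eventually_gt_atTop X] with x hx hxX
    rw [abs_of_neg (hp t x (by linarith) (by linarith) hxX)]
    exact hx
  · refine ⟨0, ?_⟩
    filter_upwards [eventually_gt_atTop X] with x hxX
    rw [hp t x (by linarith) (by linarith) hxX, abs_zero]
    exact (Real.exp_pos _).le

end Pool.Agent.Work.MP_973fa8.h17
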