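import Pool.Agent.Work.MP_973fa8_helper46.Slow

/-! # MP_973fa8: uniform finiteness in the plane, over the reals (helper17) -/

set_option autoImplicit false

namespace Pool.Agent.Work.MP_973fa8.h17

open Set Filter Topology Pool.Agent.Work.MP_973fa8.helper46

variable {L : FirstOrder.Language.{0, 0}} [L.Structure ℝ]

theorem frontier_fin (o : Omin L) {P : ℝ → Prop} (hP : DP L (fun v : Fin 1 → ℝ => P (v 0))) :
    (frontier {x | P x}).Finite := by
  have h1 := o.fin _ hP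
  have h2 : {x : ℝ | (fun _ : Fin 1 => x) ∈ {v : Fin 1 → ℝ | P (v 0)}} = {x | P x} := rfl
  rwa [h2] at h1

/-- countable definable sets are finite -/
theorem fin_of_countable (o : Omin L) {P : ℝ → Prop} (hP : DP L (fun v : Fin 1 → ℝ => P (v 0)))
    (hc : {x | P x}.Countable) : {x | P x}.Finite := by
  refine (frontier_fin o hP).subset fun x hx => ⟨subset_closure hx, fun hi => ?_⟩
  have h3 : interior {x | P x} = ∅ := by
    rw [interior_eq_empty_iff_dense_compl]
    exact hc.dense_compl ℝ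
  rw [h3] at hi
  exact hi

/-- at least `k` points `u < t` of the fibre over `x` -/
def NN (P : ℝ → ℝ → Prop) : ℕ → ℝ → ℝ → Prop
  | 0, _, _ => True
  | (k + 1), x, t => ∃ u, u < t ∧ P x u ∧ NN P k x u

theorem NN_def (o : Omin L) {P : ℝ → ℝ → Prop}
    (hP : DP L (fun v : Fin 2 → ℝ => P (v 0) (v 1))) (k : ℕ) :
    DP L (fun v : Fin 2 → ℝ => NN P k (v 0) (v 1)) := by
  induction k with
  | zero =>
    have h : DP L (fun _ : Fin 2 → ℝ => (0 : ℝ) = 0) := (DF.const 0).eq (DF.const 0)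
    exact h.congr fun v => ⟨fun _ => trivial, fun _ => rfl⟩
  | succ k ih =>
    change DP L (fun v : Fin 2 → ℝ => ∃ u, u < v 1 ∧ P (v 0) u ∧ NN P k (v 0) u)
    apply DP.ex
    apply DP.and (o.dlt (DF.var _) (DF.var _))
    apply DP.and
    · exact DP.sub2 hP (DF.var _) (DF.var _)
    · exact DP.sub2 ih (DF.var _) (DF.var _)

theorem NN_iff {P : ℝ → ℝ → Prop} {x : ℝ} (hf : {u | P x u}.Finite) (k : ℕ) (t : ℝ) :
    NN P k x t ↔ k ≤ {u | P x u ∧ u < t}.ncard := by
  have hft : ∀ t, {u | P x u ∧ u < t}.Finite := fun t => hf.subset fun u hu => hu.1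
  induction k generalizing t with
  | zero => simp [NN]
  | succ k ih =>
    constructor
    · rintro ⟨u, hu, hPu, h⟩
      replace h := (ih u).1 h
      have h1 : insert u {w | P x w ∧ w < u} ⊆ {w | P x w ∧ w < t} := by
        intro w hw
        rcases hw with rfl | hw
        · exact ⟨hPu, hu⟩
        · exact ⟨hw.1, hw.2.trans hu⟩
      have h2 := Set.ncard_le_ncard h1 (hft t)
      rw [Set.ncard_insert_of_notMem (fun h3 => lt_irrefl _ h3.2) (hft u)] at h2
      omega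
    · intro h
      have hne : {u | P x u ∧ u < t}.Nonempty := by
        rw [← Set.ncard_pos (hft t)]
        omega
      obtain ⟨u, hu, hmax⟩ := Set.exists_max_image _ id (hft t) hne
      refine ⟨u, hu.2, hu.1, (ih u).2 ?_⟩
      have h3 : {w | P x w ∧ w < t} ⊆ insert u {w | P x w ∧ w < u} := by
        intro w hw
        rcases lt_or_eq_of_le (hmax w hw) with h4 | h4
        · right
          exact ⟨hw.1, h4⟩
        · left
          exact h4
      have h4 := Set.ncard_le_ncard h3 ((hft u).insert u)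
      have h5 := Set.ncard_insert_le u {w | P x w ∧ w < u}
      omega

/-- normal points of a planar set with finite fibres -/
def Nrm (P : ℝ → ℝ → Prop) (a b : ℝ) : Prop :=
  (∃ ε, 0 < ε ∧ ∀ x, a - ε < x → x < a + ε → ∀ u, b - ε < u → u < b + ε → ¬ P x u) ∨
  (∃ η₀, 0 < η₀ ∧ ∀ η, 0 < η → η < η₀ → ∃ ε, 0 < ε ∧ ∀ x, a - ε < x → x < a + ε →
    ∃ u, (b - η < u ∧ u < b + η ∧ P x u) ∧ ∀ u', b - η < u' → u' < b + η → P x u' → u' = u)

theorem abn_def (o : Omin L) {P : ℝ → ℝ → Prop}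
    (hP : DP L (fun v : Fin 2 → ℝ => P (v 0) (v 1))) :
    DP L (fun v : Fin 1 → ℝ => ∃ b, ¬ Nrm P (v 0) b) := by
  apply DP.ex
  apply DP.not
  unfold Nrm
  apply DP.or
  · apply DP.ex
    apply DP.and (o.dlt (DF.const _) (DF.var _))
    apply DP.all
    apply DP.imp (o.dlt (o.dsub (DF.var _) (DF.var _)) (DF.var _))
    apply DP.imp (o.dlt (DF.var _) (o.dadd (DF.var _) (DF.var _)))
    apply DP.all
    apply DP.imp (o.dlt (o.dsub (DF.var _) (DF.var _)) (DF.var _))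
    apply DP.imp (o.dlt (DF.var _) (o.dadd (DF.var _) (DF.var _)))
    apply DP.not
    exact DP.sub2 hP (DF.var _) (DF.var _)
  · apply DP.ex
    apply DP.and (o.dlt (DF.const _) (DF.var _))
    apply DP.all
    apply DP.imp (o.dlt (DF.const _) (DF.var _))
    apply DP.imp (o.dlt (DF.var _) (DF.var _))
    apply DP.ex
    apply DP.and (o.dlt (DF.const _) (DF.var _))
    apply DP.all
    apply DP.imp (o.dlt (o.dsub (DF.var _) (DF.var _)) (DF.var _))
    apply DP.imp (o.dlt (DF.var _) (o.dadd (DF.var _) (DF.var _)))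
    apply DP.ex
    apply DP.and
    · apply DP.and (o.dlt (o.dsub (DF.var _) (DF.var _)) (DF.var _))
      apply DP.and (o.dlt (DF.var _) (o.dadd (DF.var _) (DF.var _)))
      exact DP.sub2 hP (DF.var _) (DF.var _)
    · apply DP.all
      apply DP.imp (o.dlt (o.dsub (DF.var _) (DF.var _)) (DF.var _))
      apply DP.imp (o.dlt (DF.var _) (o.dadd (DF.var _) (DF.var _)))
      apply DP.imp
      · exact DP.sub2 hP (DF.var _) (DF.var _)
      · exact (DF.var _).eq (DF.var _)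

theorem cnt_add {P : ℝ → ℝ → Prop} {x : ℝ} (hf : {u | P x u}.Finite) {s t : ℝ} (hst : s ≤ t) :
    {u | P x u ∧ u < t}.ncard = {u | P x u ∧ u < s}.ncard + {u | P x u ∧ s ≤ u ∧ u < t}.ncard := by
  rw [← Set.ncard_union_eq ?_ (hf.subset fun u hu => hu.1) (hf.subset fun u hu => hu.1)]
  · congr 1
    ext u
    simp only [mem_ofPred_eq, mem_union]
    constructor
    · rintro ⟨h1, h2⟩
      rcases lt_or_ge u s with h3 | h3
      · exact Or.inl ⟨h1, h3⟩
      · exact Or.inr ⟨h1, h3, h2⟩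
    · rintro (⟨h1, h2⟩ | ⟨h1, h2, h3⟩)
      · exact ⟨h1, h2.trans_le hst⟩
      · exact ⟨h1, h3⟩
  · rw [Set.disjoint_left]
    rintro u ⟨-, h1⟩ ⟨-, h2, -⟩
    exact absurd h1 (not_lt.2 h2)

/-- the exceptional countable set -/
def TT (P : ℝ → ℝ → Prop) : Set ℝ := ⋃ q : ℚ, ⋃ k : ℕ, frontier {x | NN P k x q}

theorem TT_countable (o : Omin L) {P : ℝ → ℝ → Prop}
    (hP : DP L (fun v : Fin 2 → ℝ => P (v 0) (v 1))) : (TT P).Countable := by
  refine Set.countable_iUnion fun q => Set.countable_iUnion fun k => ?_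
  apply Set.Finite.countable
  apply frontier_fin o (P := fun x => NN P k x q)
  exact DP.sub2 (NN_def o hP k) (DF.var _) (DF.const _)

theorem cnt_loc {P : ℝ → ℝ → Prop} (hf : ∀ x, {u | P x u}.Finite) {a : ℝ} (ha : a ∉ TT P)
    (q : ℚ) : ∀ᶠ x in 𝓝 a, {u | P x u ∧ u < (q : ℝ)}.ncard = {u | P a u ∧ u < (q : ℝ)}.ncard := by
  have h1 : ∀ k : ℕ, a ∉ frontier {x | NN P k x q} := fun k hk =>
    ha (mem_iUnion.2 ⟨q, mem_iUnion.2 ⟨k, hk⟩⟩)
  set n := {u | P a u ∧ u < (q : ℝ)}.ncard with hn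
  have h2 : ∀ᶠ x in 𝓝 a, NN P n x q := by
    have h3 : a ∈ {x | NN P n x q} := (NN_iff (hf a) n q).2 le_rfl
    have h4 : a ∈ interior {x | NN P n x q} := by
      by_contra h5
      exact h1 n ⟨subset_closure h3, h5⟩
    exact mem_interior_iff_mem_nhds.1 h4
  have h3 : ∀ᶠ x in 𝓝 a, ¬ NN P (n + 1) x q := by
    have h3 : a ∉ {x | NN P (n + 1) x q} := fun h => by
      have := (NN_iff (hf a) (n + 1) q).1 h
      omega
    have h4 : a ∉ closure {x | NN P (n + 1) x q} := by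
      intro h5
      exact h1 (n + 1) ⟨h5, fun h6 => h3 (interior_subset h6)⟩
    have h5 : (closure {x | NN P (n + 1) x q})ᶜ ∈ 𝓝 a := isClosed_closure.isOpen_compl.mem_nhds h4
    filter_upwards [h5] with x hx hx2
    exact hx (subset_closure hx2)
  filter_upwards [h2, h3] with x h4 h5
  rw [NN_iff (hf x)] at h4 h5
  omega

theorem ncard_zero_iff' {P : ℝ → ℝ → Prop} {x : ℝ} (hf : {u | P x u}.Finite) {s t : ℝ}
    (h : {u | P x u ∧ s ≤ u ∧ u < t}.ncard = 0) (u : ℝ) (h1 : s ≤ u) (h2 : u < t) : ¬ P x u := by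
  intro h3
  rw [Set.ncard_eq_zero (hf.subset fun u hu => hu.1)] at h
  have h4 : u ∈ {u | P x u ∧ s ≤ u ∧ u < t} := ⟨h3, h1, h2⟩
  rw [h] at h4
  exact h4

theorem nrm_of {P : ℝ → ℝ → Prop} (hf : ∀ x, {u | P x u}.Finite) {a : ℝ} (ha : a ∉ TT P)
    (b : ℝ) : Nrm P a b := by
  -- isolate `b`
  obtain ⟨δ, hδ, hiso⟩ : ∃ δ > 0, ∀ u, P a u → u ≠ b → δ ≤ |u - b| := by
    have h1 : ∀ᶠ δ : ℝ in 𝓝[>] 0, ∀ u ∈ {u | P a u}, u ≠ b → δ ≤ |u - b| := by
      rw [Filter.eventually_all_finite (hf a)]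
      intro u _
      by_cases hub : u = b
      · exact Eventually.of_forall fun δ h => absurd hub h
      · have h2 : 0 < |u - b| := abs_pos.2 (sub_ne_zero.2 hub)
        filter_upwards [Ioo_mem_nhdsGT h2] with δ hδ _
        exact hδ.2.le
    obtain ⟨δ, h2, h3⟩ := (h1.and self_mem_nhdsWithin).exists
    exact ⟨δ, h3, h2⟩
  have nbhd : ∀ {Q : ℝ → Prop}, (∀ᶠ x in 𝓝 a, Q x) → ∃ ε, 0 < ε ∧ ∀ x, a - ε < x → x < a + ε → Q x := by
    intro Q hQ
    obtain ⟨ε, hε, h⟩ := Metric.eventually_nhds_iff.1 hQ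
    refine ⟨ε, hε, fun x h1 h2 => h ?_⟩
    rw [Real.dist_eq, abs_lt]
    constructor <;> linarith
  by_cases hb : P a b
  · right
    obtain ⟨p, hp1, hp2⟩ := exists_rat_btwn (show b - δ < b by linarith)
    obtain ⟨p', hp1', hp2'⟩ := exists_rat_btwn (show b < b + δ by linarith)
    have hone : ∀ s t : ℝ, b - δ < s → s < b → b < t → t < b + δ →
        {u | P a u ∧ s ≤ u ∧ u < t}.ncard = 1 := by
      intro s t h1 h2 h3 h4
      rw [Set.ncard_eq_one]
      refine ⟨b, ?_⟩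
      ext u
      simp only [mem_ofPred_eq, mem_singleton_iff]
      constructor
      · rintro ⟨h5, h6, h7⟩
        by_contra h8
        have h9 := hiso u h5 h8
        rcases abs_cases (u - b) with h10 | h10 <;> linarith
      · rintro rfl
        exact ⟨hb, h2.le, h3⟩
    refine ⟨min (b - p) (p' - b), lt_min (by linarith) (by linarith), ?_⟩
    intro η hη hη0
    have hη1 : η < b - p := hη0.trans_le (min_le_left _ _)
    have hη2 : η < p' - b := hη0.trans_le (min_le_right _ _)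
    obtain ⟨q, hq1, hq2⟩ := exists_rat_btwn (show b - η < b by linarith)
    obtain ⟨q', hq1', hq2'⟩ := exists_rat_btwn (show b < b + η by linarith)
    obtain ⟨ε, hε, h⟩ := nbhd (((cnt_loc hf ha p).and (cnt_loc hf ha p')).and
      ((cnt_loc hf ha q).and (cnt_loc hf ha q')))
    refine ⟨ε, hε, fun x hx1 hx2 => ?_⟩
    obtain ⟨⟨e1, e2⟩, e3, e4⟩ := h x hx1 hx2
    have a1 := cnt_add (hf a) (show (p : ℝ) ≤ p' by linarith)
    have a2 := cnt_add (hf a) (show (q : ℝ) ≤ q' by linarith)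
    have x1 := cnt_add (hf x) (show (p : ℝ) ≤ p' by linarith)
    have x2 := cnt_add (hf x) (show (q : ℝ) ≤ q' by linarith)
    rw [hone p p' (by linarith) hp2 hp1' hp2'] at a1
    rw [hone q q' (by linarith) hq2 hq1' (by linarith)] at a2
    have y1 : {u | P x u ∧ (p : ℝ) ≤ u ∧ u < p'}.ncard = 1 := by omega
    have y2 : {u | P x u ∧ (q : ℝ) ≤ u ∧ u < q'}.ncard = 1 := by omega
    obtain ⟨v, hv⟩ := Set.ncard_eq_one.1 y1
    obtain ⟨w, hw⟩ := Set.ncard_eq_one.1 y2
    have hw1 : w ∈ {u | P x u ∧ (q : ℝ) ≤ u ∧ u < q'} := by rw [hw]; exact mem_singleton w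
    have hwv : w ∈ {u | P x u ∧ (p : ℝ) ≤ u ∧ u < p'} :=
      ⟨hw1.1, by linarith [hw1.2.1], by linarith [hw1.2.2]⟩
    rw [hv] at hwv
    refine ⟨w, ⟨by linarith [hw1.2.1], by linarith [hw1.2.2], hw1.1⟩, ?_⟩
    intro u' h1 h2 h3
    have h4 : u' ∈ {u | P x u ∧ (p : ℝ) ≤ u ∧ u < p'} := ⟨h3, by linarith, by linarith⟩
    rw [hv] at h4
    rw [mem_singleton_iff.1 h4, mem_singleton_iff.1 hwv]
  · left
    obtain ⟨p, hp1, hp2⟩ := exists_rat_btwn (show b - δ < b by linarith)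
    obtain ⟨p', hp1', hp2'⟩ := exists_rat_btwn (show b < b + δ by linarith)
    obtain ⟨ε, hε, h⟩ := nbhd ((cnt_loc hf ha p).and (cnt_loc hf ha p'))
    refine ⟨min ε (min (b - p) (p' - b)), lt_min hε (lt_min (by linarith) (by linarith)), ?_⟩
    intro x hx1 hx2 u hu1 hu2
    have m1 := min_le_left ε (min (b - (p : ℝ)) (p' - b))
    have m2 := (min_le_right ε (min (b - (p : ℝ)) (p' - b))).trans (min_le_left _ _)
    have m3 := (min_le_right ε (min (b - (p : ℝ)) (p' - b))).trans (min_le_right _ _)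
    obtain ⟨e1, e2⟩ := h x (by linarith) (by linarith)
    have a1 := cnt_add (hf a) (show (p : ℝ) ≤ p' by linarith)
    have x1 := cnt_add (hf x) (show (p : ℝ) ≤ p' by linarith)
    have z : {u | P a u ∧ (p : ℝ) ≤ u ∧ u < p'}.ncard = 0 := by
      rw [Set.ncard_eq_zero ((hf a).subset fun u hu => hu.1)]
      ext u
      simp only [mem_ofPred_eq, mem_empty_iff_false, iff_false]
      rintro ⟨h5, h6, h7⟩
      have h8 : u ≠ b := fun h => hb (h ▸ h5)
      have h9 := hiso u h5 h8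
      rcases abs_cases (u - b) with h10 | h10 <;> linarith
    exact ncard_zero_iff' (s := (p : ℝ)) (t := (p' : ℝ)) (hf x) (by omega) u (by linarith) (by linarith)

theorem locconst {P : ℝ → ℝ → Prop} (hf : ∀ x, {u | P x u}.Finite)
    (hs : ∀ x u, P x u → -1 ≤ u ∧ u ≤ 1) {a : ℝ} (ha : ∀ b, Nrm P a b) :
    ∀ᶠ x in 𝓝 a, {u | P x u}.ncard = {u | P a u}.ncard := by
  have nbhd' : ∀ {Q : ℝ → Prop}, (∃ ε, 0 < ε ∧ ∀ x, a - ε < x → x < a + ε → Q x) →
      ∀ᶠ x in 𝓝 a, Q x := by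
    rintro Q ⟨ε, hε, h⟩
    filter_upwards [Ioo_mem_nhds (show a - ε < a by linarith) (show a < a + ε by linarith)]
      with x hx
    exact h x hx.1 hx.2
  -- points of the fibre are of the second kind
  have h2 : ∀ s ∈ {u | P a u}, ∃ η₀, 0 < η₀ ∧ ∀ η, 0 < η → η < η₀ → ∀ᶠ x in 𝓝 a,
      ∃ u, (s - η < u ∧ u < s + η ∧ P x u) ∧ ∀ u', s - η < u' → u' < s + η → P x u' → u' = u := by
    intro s hs
    rcases ha s with ⟨ε, hε, h⟩ | ⟨η₀, hη₀, h⟩
    · exact absurd hs (h a (by linarith) (by linarith) s (by linarith) (by linarith))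
    · exact ⟨η₀, hη₀, fun η h1 h2 => nbhd' (h η h1 h2)⟩
  -- other points are of the first kind
  have h1 : ∀ b, ¬ P a b → ∀ᶠ z : ℝ × ℝ in 𝓝 (a, b), ¬ P z.1 z.2 := by
    intro b hb
    rcases ha b with ⟨ε, hε, h⟩ | ⟨η₀, hη₀, h⟩
    · rw [nhds_prod_eq]
      filter_upwards [prod_mem_prod
        (Ioo_mem_nhds (show a - ε < a by linarith) (show a < a + ε by linarith))
        (Ioo_mem_nhds (show b - ε < b by linarith) (show b < b + ε by linarith))] with z hz
      exact h z.1 hz.1.1 hz.1.2 z.2 hz.2.1 hz.2.2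
    · exfalso
      have h3 : ∀ᶠ δ : ℝ in 𝓝[>] 0, ∀ u ∈ {u | P a u}, δ ≤ |u - b| := by
        rw [Filter.eventually_all_finite (hf a)]
        intro u hu
        have hub : u ≠ b := fun h => hb (h ▸ hu)
        have h2 : 0 < |u - b| := abs_pos.2 (sub_ne_zero.2 hub)
        filter_upwards [Ioo_mem_nhdsGT h2] with δ hδ
        exact hδ.2.le
      obtain ⟨δ, ⟨h4, h5⟩, h6⟩ := ((h3.and (Ioo_mem_nhdsGT hη₀)).and self_mem_nhdsWithin).exists
      obtain ⟨ε, hε, h7⟩ := h δ h6 h5.2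
      obtain ⟨u, ⟨hu1, hu2, hu3⟩, -⟩ := h7 a (by linarith) (by linarith)
      have h8 := h4 u hu3
      rcases abs_cases (u - b) with h10 | h10 <;> linarith
  -- choice of `η`
  obtain ⟨η, hη, hgap, huni⟩ : ∃ η > 0, (∀ s ∈ {u | P a u}, ∀ s' ∈ {u | P a u}, s ≠ s' →
      2 * η ≤ |s - s'|) ∧ ∀ s ∈ {u | P a u}, ∀ᶠ x in 𝓝 a,
      ∃ u, (s - η < u ∧ u < s + η ∧ P x u) ∧ ∀ u', s - η < u' → u' < s + η → P x u' → u' = u := by
    have e1 : ∀ᶠ η : ℝ in 𝓝[>] 0, ∀ s ∈ {u | P a u}, ∀ s' ∈ {u | P a u}, s ≠ s' →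
        2 * η ≤ |s - s'| := by
      rw [Filter.eventually_all_finite (hf a)]
      intro s _
      rw [Filter.eventually_all_finite (hf a)]
      intro s' _
      by_cases hss : s = s'
      · exact Eventually.of_forall fun δ h => absurd hss h
      · have h2 : 0 < |s - s'| / 2 := by
          have := abs_pos.2 (sub_ne_zero.2 hss)
          linarith
        filter_upwards [Ioo_mem_nhdsGT h2] with δ hδ _
        linarith [hδ.2]
    have e2 : ∀ᶠ η : ℝ in 𝓝[>] 0, ∀ s ∈ {u | P a u}, ∀ᶠ x in 𝓝 a,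
        ∃ u, (s - η < u ∧ u < s + η ∧ P x u) ∧
          ∀ u', s - η < u' → u' < s + η → P x u' → u' = u := by
      rw [Filter.eventually_all_finite (hf a)]
      intro s hs
      obtain ⟨η₀, hη₀, h⟩ := h2 s hs
      filter_upwards [Ioo_mem_nhdsGT hη₀] with η hη
      exact h η hη.1 hη.2
    obtain ⟨η, ⟨h3, h4⟩, h5⟩ := ((e1.and e2).and self_mem_nhdsWithin).exists
    exact ⟨η, h5, h3, h4⟩
  -- the compact complement
  set K : Set ℝ := Icc (-1) 1 \ ⋃ s ∈ {u | P a u}, Ioo (s - η) (s + η) with hK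
  have hKc : IsCompact K := by
    apply IsCompact.diff isCompact_Icc
    exact isOpen_biUnion fun s _ => isOpen_Ioo
  have hKe : ∀ᶠ x in 𝓝 a, ∀ u ∈ K, ¬ P x u := by
    apply hKc.eventually_forall_of_forall_eventually
    intro b hb
    apply h1
    intro hPb
    exact hb.2 (mem_biUnion hPb ⟨by linarith, by linarith⟩)
  have huni' : ∀ᶠ x in 𝓝 a, ∀ s ∈ {u | P a u},
      ∃ u, (s - η < u ∧ u < s + η ∧ P x u) ∧
        ∀ u', s - η < u' → u' < s + η → P x u' → u' = u := by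
    rw [Filter.eventually_all_finite (hf a)]
    exact huni
  filter_upwards [hKe, huni'] with x hx1 hx2
  symm
  choose! φ hφ1 hφ2 using hx2
  apply Set.ncard_congr (fun s _ => φ s)
  · intro s hs
    exact (hφ1 s hs).2.2
  · intro s s' hs hs' he
    by_contra hne
    have g := hgap s hs s' hs' hne
    have g1 := hφ1 s hs
    have g2 := hφ1 s' hs'
    have he' : φ s = φ s' := he
    rw [← he'] at g2
    rcases abs_cases (s - s') with h10 | h10 <;> linarith [g1.1, g1.2.1, g2.1, g2.2.1]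
  · intro u hu
    have hu' : P x u := hu
    have h3 : u ∈ ⋃ s ∈ {u | P a u}, Ioo (s - η) (s + η) := by
      by_contra h4
      exact hx1 u ⟨hs x u hu', h4⟩ hu'
    obtain ⟨s, hs', hsu⟩ := mem_iUnion₂.1 h3
    exact ⟨s, hs', (hφ2 s hs' u hsu.1 hsu.2 hu').symm⟩

/-- uniform finiteness at infinity -/
theorem UF (o : Omin L) {P : ℝ → ℝ → Prop} (hP : DP L (fun v : Fin 2 → ℝ => P (v 0) (v 1)))
    (hf : ∀ x, {u | P x u}.Finite) (hs : ∀ x u, P x u → -1 ≤ u ∧ u ≤ 1) :
    ∃ K : ℕ, ∃ b : ℝ, ∀ x, b < x → {u | P x u}.ncard ≤ K := by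
  have hB : {a | ∃ b, ¬ Nrm P a b}.Finite := by
    apply fin_of_countable o (abn_def o hP)
    apply (TT_countable o hP).mono
    rintro a ⟨b, hb⟩
    by_contra h
    exact hb (nrm_of hf h b)
  obtain ⟨b₀, hb₀⟩ := hB.bddAbove
  have hall : ∀ a, b₀ < a → ∀ b, Nrm P a b := by
    intro a ha b
    by_contra h
    exact absurd (hb₀ ⟨b, h⟩) (not_le.2 ha)
  have hc : ContinuousOn (fun x => {u | P x u}.ncard) (Ioi b₀) := by
    intro a ha
    apply ContinuousAt.continuousWithinAt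
    exact (continuousAt_const (y := {u | P a u}.ncard)).congr
      ((locconst hf hs (hall a ha)).mono fun x hx => hx.symm)
  refine ⟨{u | P (b₀ + 1) u}.ncard, b₀, fun x hx => ?_⟩
  have := isPreconnected_Ioi.constant hc hx (show b₀ + 1 ∈ Ioi b₀ from by simp)
  exact this.le

end Pool.Agent.Work.MP_973fa8.h17
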